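import Mathlib
import Pool.Agent.W238.Leh.General
import Pool.Agent.Helper259.HtExt

/-!
The field of definition of a point of projective space over the algebraic closure, and the
canonical height over different fields.
-/

set_option autoImplicit false

namespace Pool.Agent.D0H82.DL

open MvPolynomial NumberField Module Filter Topology Pool.Agent.W238.Leh

open scoped LinearAlgebra.Projectivization

noncomputable section

variable {K : Type} [Field K]

/-- the field of definition `K(P)` of a point `P` over the algebraic closure of `K`: the field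
generated over `K` by the quotients of the coordinates -/
def fieldOf (K : Type) [Field K] {n : ℕ}
    (P : ℙ (AlgebraicClosure K) (Fin n → AlgebraicClosure K)) :
    IntermediateField K (AlgebraicClosure K) :=
  IntermediateField.adjoin K {x | ∃ i j, P.rep j ≠ 0 ∧ x = P.rep i / P.rep j}

section fields

variable {n : ℕ} (P : ℙ (AlgebraicClosure K) (Fin n → AlgebraicClosure K))

lemma exists_coord : ∃ j, P.rep j ≠ 0 := by
  by_contra hcon
  push Not at hcon
  exact P.rep_nonzero (funext hcon)

/-- an index of a nonzero coordinate -/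
def j0 : Fin n := (exists_coord P).choose

lemma rep_j0 : P.rep (j0 P) ≠ 0 := (exists_coord P).choose_spec

/-- normalised coordinates, in the field of definition -/
def vec : Fin n → fieldOf K P := fun i =>
  ⟨P.rep i / P.rep (j0 P), IntermediateField.subset_adjoin _ _ ⟨i, j0 P, rep_j0 P, rfl⟩⟩

lemma vec_j0 : vec P (j0 P) = 1 := by
  apply Subtype.ext
  change P.rep (j0 P) / P.rep (j0 P) = 1
  exact div_self (rep_j0 P)

lemma vec_ne_zero : vec P ≠ 0 := by
  intro h
  have := congrFun h (j0 P)
  rw [vec_j0] at this
  exact one_ne_zero this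

lemma coe_vec : (fun i => ((vec P i : fieldOf K P) : AlgebraicClosure K)) =
    (P.rep (j0 P))⁻¹ • P.rep := by
  funext i
  change P.rep i / P.rep (j0 P) = (P.rep (j0 P))⁻¹ * P.rep i
  rw [div_eq_mul_inv, mul_comm]

lemma rep_eq_vec : P.rep = P.rep (j0 P) •
    (fun i => ((vec P i : fieldOf K P) : AlgebraicClosure K)) := by
  rw [coe_vec, smul_smul, mul_inv_cancel₀ (rep_j0 P), one_smul]

variable {P}

lemma fieldOf_le {E : IntermediateField K (AlgebraicClosure K)}
    {x : Fin n → AlgebraicClosure K} {c : AlgebraicClosure K} (h : P.rep = c • x)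
    (hx : ∀ i, x i ∈ E) : fieldOf K P ≤ E := by
  rw [fieldOf, IntermediateField.adjoin_le_iff]
  rintro _ ⟨i, j, hj, rfl⟩
  have h1 : P.rep i = c * x i := by rw [h]; rfl
  have h2 : P.rep j = c * x j := by rw [h]; rfl
  have hc : c ≠ 0 := by
    rintro rfl
    rw [zero_mul] at h2
    exact hj h2
  rw [h1, h2, mul_div_mul_left _ _ hc]
  exact E.div_mem (hx i) (hx j)

variable (P)

instance finDim : FiniteDimensional K (fieldOf K P) := by
  have : Finite {x | ∃ i j, P.rep j ≠ 0 ∧ x = P.rep i / P.rep j} := by
    have h1 : {x | ∃ i j, P.rep j ≠ 0 ∧ x = P.rep i / P.rep j} ⊆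
        Set.range fun p : Fin n × Fin n => P.rep p.1 / P.rep p.2 := by
      rintro _ ⟨i, j, _, rfl⟩
      exact ⟨(i, j), rfl⟩
    exact Set.Finite.to_subtype ((Set.finite_range _).subset h1)
  exact IntermediateField.finiteDimensional_adjoin fun x _ =>
    (Algebra.IsAlgebraic.isAlgebraic x).isIntegral

lemma numberField_of [NumberField K] (E : IntermediateField K (AlgebraicClosure K))
    [FiniteDimensional K E] : NumberField E := NumberField.of_module_finite K E

end fields

section act

variable {N d : ℕ} {F : Fin (N + 1) → MvPolynomial (Fin (N + 1)) K}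

/-- the action commutes with field embeddings -/
lemma act_map {M M' : Type*} [Field M] [Algebra K M] [Field M'] [Algebra K M'] (ψ : M →ₐ[K] M')
    (x : Fin (N + 1) → M) : act F (fun i => ψ (x i)) = fun i => ψ (act F x i) := by
  funext i
  unfold act
  exact (MvPolynomial.comp_aeval_apply (f := x) ψ (F i)).symm

lemma iter_map {M M' : Type*} [Field M] [Algebra K M] [Field M'] [Algebra K M'] (ψ : M →ₐ[K] M')
    (x : Fin (N + 1) → M) (n : ℕ) :
    (act F)^[n] (fun i => ψ (x i)) = fun i => ψ ((act F)^[n] x i) := by
  induction n with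
  | zero => rfl
  | succ n ih => rw [Function.iterate_succ_apply', ih, act_map, Function.iterate_succ_apply']

/-- the action has no zeros over any algebraic extension -/
lemma act_ne_zero' (hmor : ∀ z : Fin (N + 1) → AlgebraicClosure K, (∀ i, aeval z (F i) = 0) →
    z = 0) {z : Fin (N + 1) → AlgebraicClosure K} (hz : z ≠ 0) : act F z ≠ 0 := by
  intro h
  exact hz (hmor z fun i => congrFun h i)

lemma iter_ne_zero' (hmor : ∀ z : Fin (N + 1) → AlgebraicClosure K, (∀ i, aeval z (F i) = 0) →
    z = 0) {z : Fin (N + 1) → AlgebraicClosure K} (hz : z ≠ 0) (n : ℕ) : (act F)^[n] z ≠ 0 := by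
  induction n with
  | zero => exact hz
  | succ n ih =>
    rw [Function.iterate_succ_apply']
    exact act_ne_zero' hmor ih

end act

section heights

variable [NumberField K] {N d : ℕ} {F : Fin (N + 1) → MvPolynomial (Fin (N + 1)) K}

/-- the canonical height does not depend on the field -/
lemma canH_map {M M' : Type} [Field M] [NumberField M] [Algebra K M] [Field M'] [NumberField M']
    [Algebra K M'] (ψ : M →ₐ[K] M') (x : Fin (N + 1) → M) :
    canH F d (fun i => ψ (x i)) = canH F d x := by
  unfold canH
  congr 1
  funext n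
  rw [iter_map]
  let _ : Algebra M M' := ψ.toRingHom.toAlgebra
  have h0 := Helper259.HtExt.logHeight_ext (K := M) (L := M') ((act F)^[n] x)
  have h1 : (finrank ℚ M' : ℝ) = finrank ℚ M * finrank M M' := by
    exact_mod_cast (finrank_mul_finrank ℚ M M').symm
  have h2 : (0 : ℝ) < finrank M M' := by exact_mod_cast (finrank_pos : 0 < finrank M M')
  have h3 : (fun i => ψ ((act F)^[n] x i)) = fun i => algebraMap M M' ((act F)^[n] x i) := rfl
  rw [h3, h0, h1, mul_assoc, mul_left_comm (finrank ℚ M : ℝ)]
  exact mul_div_mul_left _ _ h2.ne'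

/-- the canonical heights of proportional vectors over different fields agree -/
lemma canH_eq_of_prop (hF : ∀ i, (F i).IsHomogeneous d) {M M' : Type} [Field M] [NumberField M]
    [Algebra K M] [Field M'] [NumberField M'] [Algebra K M'] (ψ : M →ₐ[K] AlgebraicClosure K)
    (ψ' : M' →ₐ[K] AlgebraicClosure K) {x : Fin (N + 1) → M} {x' : Fin (N + 1) → M'}
    (hx' : x' ≠ 0) {c : AlgebraicClosure K} (hc : c ≠ 0)
    (h : (fun i => ψ (x i)) = c • fun i => ψ' (x' i)) :
    canH F d x = canH F d x' := by
  have : FiniteDimensional K M := Module.Finite.of_restrictScalars_finite ℚ K M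
  have : FiniteDimensional K M' := Module.Finite.of_restrictScalars_finite ℚ K M'
  have : FiniteDimensional K ψ.fieldRange :=
    Module.Finite.equiv (AlgEquiv.ofInjectiveField ψ).toLinearEquiv
  have : FiniteDimensional K ψ'.fieldRange :=
    Module.Finite.equiv (AlgEquiv.ofInjectiveField ψ').toLinearEquiv
  set E := ψ.fieldRange ⊔ ψ'.fieldRange with hE
  have : FiniteDimensional K E := IntermediateField.finiteDimensional_sup _ _
  have : NumberField E := NumberField.of_module_finite K E
  let φ : M →ₐ[K] E := (IntermediateField.inclusion le_sup_left).comp ψ.rangeRestrict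
  let φ' : M' →ₐ[K] E := (IntermediateField.inclusion le_sup_right).comp ψ'.rangeRestrict
  have h1 : ∀ y, ((φ y : E) : AlgebraicClosure K) = ψ y := fun y => rfl
  have h2 : ∀ y, ((φ' y : E) : AlgebraicClosure K) = ψ' y := fun y => rfl
  obtain ⟨j, hj⟩ : ∃ j, x' j ≠ 0 := by
    by_contra hcon
    push Not at hcon
    exact hx' (funext hcon)
  have hcE : c = ((φ (x j) / φ' (x' j) : E) : AlgebraicClosure K) := by
    have h3 := congrFun h j
    simp only [Pi.smul_apply, smul_eq_mul] at h3
    have h4 : ψ' (x' j) ≠ 0 := by
      rw [Ne, map_eq_zero]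
      exact hj
    change c = ψ (x j) / ψ' (x' j)
    rw [h3, mul_div_assoc, div_self h4, mul_one]
  set b : E := φ (x j) / φ' (x' j) with hb
  have hb0 : b ≠ 0 := by
    intro h0
    rw [h0] at hcE
    exact hc hcE
  have h5 : (fun i => φ (x i)) = b • fun i => φ' (x' i) := by
    funext i
    apply Subtype.ext
    have h6 := congrFun h i
    simp only [Pi.smul_apply, smul_eq_mul] at h6
    change ψ (x i) = (b : AlgebraicClosure K) * ψ' (x' i)
    rw [h6, ← hcE]
  rw [← canH_map φ x, h5, canH_smul hF hb0, canH_map φ' x']

/-- the canonical height along an orbit -/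
lemma canH_iter_of {M : Type} [Field M] [NumberField M] [Algebra K M] (hd : 2 ≤ d)
    (hne : ∀ x : Fin (N + 1) → M, x ≠ 0 → act F x ≠ 0)
    (ht : ∀ x : Fin (N + 1) → M, x ≠ 0 →
        Tendsto (fun n : ℕ => Height.logHeight ((act F)^[n] x) /
          ((finrank ℚ M : ℝ) * (d : ℝ) ^ n)) atTop (𝓝 (canH F d x)))
    {x : Fin (N + 1) → M} (hx : x ≠ 0) (n : ℕ) :
    canH F d ((act F)^[n] x) = d ^ n * canH F d x := by
  have hstep : ∀ z : Fin (N + 1) → M, z ≠ 0 → canH F d (act F z) = d * canH F d z := by
    intro z hz
    have h1 := ht _ (hne z hz)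
    have h2 := ((ht z hz).comp (tendsto_add_atTop_nat 1)).const_mul (d : ℝ)
    refine tendsto_nhds_unique h1 (h2.congr fun n => ?_)
    have hd' : (0 : ℝ) < d := by
      have : 0 < d := by omega
      exact_mod_cast this
    have hD := finrank_pos' (L := M)
    simp only [Function.comp_apply, Function.iterate_succ_apply]
    field_simp
    ring
  have hn0 : ∀ n, (act F)^[n] x ≠ 0 := by
    intro n
    induction n with
    | zero => exact hx
    | succ n ih =>
      rw [Function.iterate_succ_apply']
      exact hne _ ih
  induction n with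
  | zero => simp
  | succ n ih =>
    rw [Function.iterate_succ_apply', hstep _ (hn0 n), ih, pow_succ]
    ring

end heights

end

end Pool.Agent.D0H82.DL
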