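import Mathlib
import Pool.Agent.W238.Leh.Count

/-!
The fibres of an endomorphism of projective space have bounded cardinality.
-/

set_option autoImplicit false

namespace Pool.Agent.D0H82.DL

open MvPolynomial Module Pool.Agent.W238.Leh

open scoped LinearAlgebra.Projectivization

noncomputable section

variable {K : Type} [Field K] {N : ℕ}

/-- vectors of values of monomials span: the affine fibres have bounded cardinality -/
lemma card_affine_fibre {M : Type} [Field M] [Algebra K M] {n d : ℕ}
    {F : Fin n → MvPolynomial (Fin n) K} (hd : 2 ≤ d) (hF : ∀ i, (F i).IsHomogeneous d)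
    {c : ℕ} (hc : ∀ m, c + d ≤ m → ∀ p : MvPolynomial (Fin n) K, p.IsHomogeneous m →
      p ∈ Ideal.span (Set.range F)) (y : Fin n → M) (T : Finset (Fin n → M))
    (hT : ∀ x ∈ T, act F x = y) : T.card ≤ (c + d + 1) ^ n := by
  classical
  -- the vectors of the small monomials
  set b : (Fin n → Fin (c + d + 1)) → (T → M) := fun s x => ∏ i, (x : Fin n → M) i ^ (s i : ℕ)
    with hb
  set W : Submodule M (T → M) := Submodule.span M (Set.range b) with hW
  -- monomials of every degree
  have key : ∀ l : List ℕ, (∀ r ∈ l, r ≤ c + d) → ∀ p ∈ GG F l,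
      (fun x : T => aeval (x : Fin n → M) p) ∈ W := by
    intro l hl p hp
    cases l with
    | nil =>
      rw [GG, Set.mem_singleton_iff] at hp
      subst hp
      refine Submodule.subset_span ⟨fun _ => 0, ?_⟩
      funext x
      simp [hb]
    | cons r l =>
      obtain ⟨s, hs, g, hg, rfl⟩ := hp
      have hr : r ≤ c + d := hl r (by simp)
      have hsi : ∀ i, s i < c + d + 1 := by
        intro i
        have h1 : s i ≤ s.degree := by
          rw [Finsupp.degree_eq_sum]
          exact Finset.single_le_sum (fun j _ => Nat.zero_le (s j)) (Finset.mem_univ i)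
        omega
      have h2 : (fun x : T => aeval (x : Fin n → M) (monomial s 1 * bind₁ F g)) =
          aeval y g • b (fun i => ⟨s i, hsi i⟩) := by
        funext x
        have h3 : aeval (x : Fin n → M) (bind₁ F g) = aeval y g := by
          rw [aeval_bind₁]
          have h4 := hT x x.2
          unfold act at h4
          rw [h4]
        rw [map_mul, h3, aeval_monomial, map_one, one_mul,
          Finsupp.prod_fintype _ _ (fun i => pow_zero _), mul_comm]
        simp [hb]
      rw [h2]
      exact Submodule.smul_mem _ _ (Submodule.subset_span ⟨_, rfl⟩)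
  -- all homogeneous polynomials over `K`
  have key2 : ∀ m : ℕ, ∀ p : MvPolynomial (Fin n) K, p.IsHomogeneous m →
      (fun x : T => aeval (x : Fin n → M) p) ∈ W := by
    intro m p hp
    obtain ⟨l, hl1, hl2, hl3, _⟩ := exists_list (d := d) (c := c) hd m
    rw [← hl1] at hp
    have h1 := homSub_le_span hF hc l hl2 hp
    refine Submodule.span_induction (p := fun q _ => (fun x : T => aeval (x : Fin n → M) q) ∈ W)
      (fun q hq => key l hl3 q hq) ?_ ?_ ?_ h1
    · have : (fun x : T => aeval (x : Fin n → M) (0 : MvPolynomial (Fin n) K)) = 0 := by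
        funext x
        simp
      rw [this]
      exact Submodule.zero_mem _
    · intro q₁ q₂ _ _ h₁ h₂
      have : (fun x : T => aeval (x : Fin n → M) (q₁ + q₂)) =
          (fun x : T => aeval (x : Fin n → M) q₁) + fun x : T => aeval (x : Fin n → M) q₂ := by
        funext x
        simp
      rw [this]
      exact Submodule.add_mem _ h₁ h₂
    · intro a q _ hq
      have : (fun x : T => aeval (x : Fin n → M) (a • q)) =
          algebraMap K M a • fun x : T => aeval (x : Fin n → M) q := by
        funext x
        simp [Algebra.smul_def]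
      rw [this]
      exact Submodule.smul_mem _ _ hq
  -- all polynomials over `M`
  have key3 : ∀ p : MvPolynomial (Fin n) M, (fun x : T => eval (x : Fin n → M) p) ∈ W := by
    intro p
    induction p using MvPolynomial.induction_on' with
    | monomial s a =>
      have h1 := key2 s.degree (monomial s (1 : K)) (isHomogeneous_monomial _ rfl)
      have h2 : (fun x : T => eval (x : Fin n → M) (monomial s a)) =
          a • fun x : T => aeval (x : Fin n → M) (monomial s (1 : K)) := by
        funext x
        simp [aeval_monomial, eval_monomial]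
      rw [h2]
      exact Submodule.smul_mem _ _ h1
    | add p q hp hq =>
      have : (fun x : T => eval (x : Fin n → M) (p + q)) =
          (fun x : T => eval (x : Fin n → M) p) + fun x : T => eval (x : Fin n → M) q := by
        funext x
        simp
      rw [this]
      exact Submodule.add_mem _ hp hq
  -- interpolation
  have htop : W = ⊤ := by
    rw [eq_top_iff]
    have hsingle : ∀ x₀ : T, (Pi.single x₀ (1 : M) : T → M) ∈ W := by
      intro x₀
      have hne : ∀ x : T, x ≠ x₀ → ∃ j, (x₀ : Fin n → M) j ≠ (x : Fin n → M) j := by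
        intro x hx
        by_contra hcon
        push Not at hcon
        exact hx (Subtype.ext (funext fun j => (hcon j).symm))
      set P : MvPolynomial (Fin n) M := ∏ x ∈ Finset.univ.erase x₀,
        (if h : x ≠ x₀ then
          C (((x₀ : Fin n → M) (hne x h).choose - (x : Fin n → M) (hne x h).choose)⁻¹) *
            (X (hne x h).choose - C ((x : Fin n → M) (hne x h).choose)) else 1) with hP
      have h1 : (fun x : T => eval (x : Fin n → M) P) = Pi.single x₀ (1 : M) := by
        funext z
        rw [hP, map_prod]
        by_cases hz : z = x₀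
        · subst hz
          rw [Pi.single_eq_same]
          refine Finset.prod_eq_one fun x hx => ?_
          have hx' : x ≠ z := Finset.ne_of_mem_erase hx
          rw [dif_pos hx']
          have h2 := (hne x hx').choose_spec
          simp only [map_mul, eval_C, map_sub, eval_X]
          exact inv_mul_cancel₀ (sub_ne_zero.mpr h2)
        · rw [Pi.single_eq_of_ne hz]
          refine Finset.prod_eq_zero (Finset.mem_erase.mpr ⟨hz, Finset.mem_univ z⟩) ?_
          rw [dif_pos hz]
          simp
      rw [← h1]
      exact key3 P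
    intro v _
    have h2 : v = ∑ x : T, v x • (Pi.single x (1 : M) : T → M) := by
      funext z
      rw [Finset.sum_apply, Finset.sum_eq_single z]
      · simp
      · intro x _ hx
        simp [Pi.single_eq_of_ne (Ne.symm hx)]
      · intro h
        exact absurd (Finset.mem_univ z) h
    rw [h2]
    exact Submodule.sum_mem _ fun x _ => Submodule.smul_mem _ _ (hsingle x)
  have h1 : finrank M W ≤ Fintype.card (Fin n → Fin (c + d + 1)) := by
    rw [hW]
    exact finrank_range_le_card (R := M) b
  rw [htop, finrank_top, finrank_fintype_fun_eq_card, Fintype.card_coe] at h1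
  simpa using h1

/-- the fibres in projective space over an algebraically closed field have bounded cardinality -/
theorem fibre_bound [NumberField K] {d : ℕ} {F : Fin (N + 1) → MvPolynomial (Fin (N + 1)) K} (hd : 2 ≤ d)
    (hF : ∀ i, (F i).IsHomogeneous d)
    (hmor : ∀ z : Fin (N + 1) → AlgebraicClosure K, (∀ i, aeval z (F i) = 0) → z = 0) :
    ∃ B : ℕ, 1 ≤ B ∧ ∀ y : Fin (N + 1) → AlgebraicClosure K,
      {P : ℙ (AlgebraicClosure K) (Fin (N + 1) → AlgebraicClosure K) |
        ∃ c : AlgebraicClosure K, c ≠ 0 ∧ act F P.rep = c • y}.Finite ∧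
      {P : ℙ (AlgebraicClosure K) (Fin (N + 1) → AlgebraicClosure K) |
        ∃ c : AlgebraicClosure K, c ≠ 0 ∧ act F P.rep = c • y}.ncard ≤ B := by
  classical
  obtain ⟨e, he⟩ := exists_mem_span hmor
  refine ⟨(e + d + 1) ^ (N + 1), Nat.one_le_pow _ _ (by omega), fun y => ?_⟩
  set S := {P : ℙ (AlgebraicClosure K) (Fin (N + 1) → AlgebraicClosure K) |
        ∃ c : AlgebraicClosure K, c ≠ 0 ∧ act F P.rep = c • y} with hS
  -- scaled representatives
  have hex : ∀ P ∈ S, ∃ x : Fin (N + 1) → AlgebraicClosure K, act F x = y ∧
      ∃ b : AlgebraicClosure K, b ≠ 0 ∧ x = b • P.rep := by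
    rintro P ⟨c, hc, h⟩
    obtain ⟨b, hb⟩ := IsAlgClosed.exists_pow_nat_eq (c⁻¹) (show 0 < d by omega)
    have hb0 : b ≠ 0 := by
      rintro rfl
      rw [zero_pow (by omega)] at hb
      exact inv_ne_zero hc hb.symm
    refine ⟨b • P.rep, ?_, b, hb0, rfl⟩
    rw [act_smul hF, hb, h, smul_smul, inv_mul_cancel₀ hc, one_smul]
  choose! g hg1 hg2 using hex
  have hinj : Set.InjOn g S := by
    intro P hP Q hQ hPQ
    obtain ⟨b, hb, h1⟩ := hg2 P hP
    obtain ⟨b', hb', h2⟩ := hg2 Q hQ
    rw [h1, h2] at hPQ
    rw [← Projectivization.mk_rep P, ← Projectivization.mk_rep Q,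
      Projectivization.mk_eq_mk_iff']
    refine ⟨b⁻¹ * b', ?_⟩
    rw [← smul_smul, ← hPQ, smul_smul, inv_mul_cancel₀ hb, one_smul]
  have hfinset : ∀ U : Finset (ℙ (AlgebraicClosure K) (Fin (N + 1) → AlgebraicClosure K)),
      (U : Set _) ⊆ S → U.card ≤ (e + d + 1) ^ (N + 1) := by
    intro U hU
    have h1 : (U.image g).card = U.card := Finset.card_image_of_injOn (hinj.mono hU)
    rw [← h1]
    refine card_affine_fibre hd hF (fun m hm p hp => he m (by omega) p hp) y _ ?_
    intro x hx
    obtain ⟨P, hP, rfl⟩ := Finset.mem_image.mp hx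
    exact hg1 P (hU hP)
  have hfin : S.Finite := by
    by_contra hinf
    obtain ⟨U, hU, hcard⟩ := Set.Infinite.exists_subset_card_eq (s := S) hinf
      ((e + d + 1) ^ (N + 1) + 1)
    have h1 := hfinset U hU
    omega
  refine ⟨hfin, ?_⟩
  rw [Set.ncard_eq_toFinset_card S hfin]
  exact hfinset _ (by simp)

end

end Pool.Agent.D0H82.DL
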