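import Mathlib

/-!
A counting lemma for trees: every node has a degree and a field, the fields decrease along the
orbits, few nodes have the same field, and a change of the field doubles the degree.
-/

set_option autoImplicit false

namespace Pool.Agent.D0H82.DL

/-- the counting lemma. `S` is a set of nodes, closed under taking descendants within `S`. -/
theorem tree_bound {V Φ : Type*} [PartialOrder Φ] (f : V → V) (fld : V → Φ) (deg : V → ℕ)
    (S : Set V) (D R B : ℕ)
    (hmono : ∀ β, fld (f β) ≤ fld β)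
    (hdeg : ∀ β, fld (f β) < fld β → 2 * deg (f β) ≤ deg β)
    (hdegeq : ∀ β γ, fld β = fld γ → deg β = deg γ)
    (hdegmono : ∀ β γ, fld β ≤ fld γ → deg β ≤ deg γ)
    (hSD : ∀ β ∈ S, deg β ≤ D)
    (hS : ∀ β γ, γ ∈ S → f β = γ → deg β ≤ D → β ∈ S)
    (hfin : ∀ E : Φ, {β ∈ S | fld β = E}.Finite)
    (hcard : ∀ E : Φ, {β ∈ S | fld β = E}.ncard ≤ R)
    (hfib : ∀ γ, {β | f β = γ}.Finite) (hfibcard : ∀ γ, {β | f β = γ}.ncard ≤ B)
    (j : ℕ) : ∀ γ ∈ S, D < 2 ^ (j + 1) * deg γ →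
      {β ∈ S | ∃ n, f^[n] β = γ}.Finite ∧
      {β ∈ S | ∃ n, f^[n] β = γ}.ncard ≤ (R * (B + 1)) ^ (j + 1) := by
  classical
  have hiterS : ∀ n β γ, γ ∈ S → f^[n] β = γ → deg β ≤ D → β ∈ S := by
    intro n
    induction n with
    | zero =>
      intro β γ hγ h _
      rw [Function.iterate_zero, id] at h
      rwa [h]
    | succ n ih =>
      intro β γ hγ h hβ
      rw [Function.iterate_succ_apply] at h
      exact hS β (f β) (ih (f β) γ hγ h ((hdegmono _ _ (hmono β)).trans hβ)) rfl hβ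
  have hitermono : ∀ n β, fld (f^[n] β) ≤ fld β := by
    intro n
    induction n with
    | zero => intro β; exact le_rfl
    | succ n ih =>
      intro β
      rw [Function.iterate_succ_apply]
      exact (ih (f β)).trans (hmono β)
  -- the decomposition
  have hdecomp : ∀ γ ∈ S, ∀ n β, β ∈ S → f^[n] β = γ →
      β ∈ {δ ∈ S | fld δ = fld γ} ∨ ∃ δ ∈ {δ ∈ S | fld δ = fld γ}, ∃ γ' ∈ {ε | f ε = δ},
        γ' ∈ S ∧ fld γ < fld γ' ∧ 2 * deg γ ≤ deg γ' ∧ ∃ m, f^[m] β = γ' := by
    intro γ hγ n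
    induction n with
    | zero =>
      intro β hβ h
      left
      rw [Function.iterate_zero, id] at h
      exact ⟨hβ, by rw [h]⟩
    | succ n ih =>
      intro β hβ h
      rw [Function.iterate_succ_apply] at h
      have hfβ : f β ∈ S := hiterS n (f β) γ hγ h ((hdegmono _ _ (hmono β)).trans (hSD β hβ))
      rcases ih (f β) hfβ h with h1 | ⟨δ, hδ, γ', hγ', h2, h3, h4, m, hm⟩
      · by_cases h5 : fld β = fld γ
        · left
          exact ⟨hβ, h5⟩
        · right
          have h6 : fld (f β) < fld β := lt_of_le_of_ne (hmono β) (by rw [h1.2]; exact Ne.symm h5)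
          refine ⟨f β, h1, β, rfl, hβ, ?_, ?_, 0, rfl⟩
          · rw [← h1.2]
            exact h6
          · rw [← hdegeq _ _ h1.2]
            exact hdeg β h6
      · right
        refine ⟨δ, hδ, γ', hγ', h2, h3, h4, m + 1, ?_⟩
        rw [Function.iterate_succ_apply]
        exact hm
  -- the base: no proper growth is possible
  have main : ∀ (j : ℕ) (X : ℕ), (∀ γ' ∈ S, D < 2 ^ j * deg γ' →
      {β ∈ S | ∃ n, f^[n] β = γ'}.Finite ∧ {β ∈ S | ∃ n, f^[n] β = γ'}.ncard ≤ X) →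
      ∀ γ ∈ S, D < 2 ^ (j + 1) * deg γ →
      {β ∈ S | ∃ n, f^[n] β = γ}.Finite ∧
      {β ∈ S | ∃ n, f^[n] β = γ}.ncard ≤ R + R * (B * X) := by
    intro j X hX γ hγ hD
    set A := {δ ∈ S | fld δ = fld γ} with hA
    have hAfin : A.Finite := hfin (fld γ)
    have hAcard : A.ncard ≤ R := hcard (fld γ)
    set G : Set V := {γ' | γ' ∈ S ∧ 2 * deg γ ≤ deg γ'} with hG
    set U : Set V := ⋃ δ ∈ hAfin.toFinset, ⋃ γ' ∈ ((hfib δ).toFinset.filter (· ∈ G)),
      {β ∈ S | ∃ n, f^[n] β = γ'} with hU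
    have hsub : {β ∈ S | ∃ n, f^[n] β = γ} ⊆ A ∪ U := by
      rintro β ⟨hβ, n, hn⟩
      rcases hdecomp γ hγ n β hβ hn with h | ⟨δ, hδ, γ', hγ', h2, h3, h4, m, hm⟩
      · exact Or.inl h
      · right
        rw [hU]
        simp only [Set.mem_iUnion]
        exact ⟨δ, hAfin.mem_toFinset.mpr hδ, γ',
          Finset.mem_filter.mpr ⟨(hfib δ).mem_toFinset.mpr hγ', h2, h4⟩, hβ, m, hm⟩
    have hXG : ∀ γ' ∈ G, {β ∈ S | ∃ n, f^[n] β = γ'}.Finite ∧
        {β ∈ S | ∃ n, f^[n] β = γ'}.ncard ≤ X := by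
      rintro γ' ⟨h1, h2⟩
      refine hX γ' h1 (hD.trans_le ?_)
      rw [pow_succ, mul_assoc]
      exact Nat.mul_le_mul_left _ h2
    have hUfin : U.Finite := by
      rw [hU]
      refine Set.Finite.biUnion (Finset.finite_toSet _) fun δ _ => ?_
      refine Set.Finite.biUnion (Finset.finite_toSet _) fun γ' hγ' => ?_
      exact (hXG γ' (Finset.mem_filter.mp hγ').2).1
    have hUcard : U.ncard ≤ R * (B * X) := by
      rw [hU]
      refine (Finset.set_ncard_biUnion_le _ _).trans ?_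
      have h1 : ∀ δ ∈ hAfin.toFinset, (⋃ γ' ∈ ((hfib δ).toFinset.filter (· ∈ G)),
          {β ∈ S | ∃ n, f^[n] β = γ'}).ncard ≤ B * X := by
        intro δ _
        refine (Finset.set_ncard_biUnion_le _ _).trans ?_
        refine (Finset.sum_le_card_nsmul _ _ X fun γ' hγ' =>
          (hXG γ' (Finset.mem_filter.mp hγ').2).2).trans ?_
        rw [smul_eq_mul]
        refine Nat.mul_le_mul_right _ ((Finset.card_filter_le _ _).trans ?_)
        rw [← Set.ncard_eq_toFinset_card _ (hfib δ)]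
        exact hfibcard δ
      refine (Finset.sum_le_card_nsmul _ _ _ h1).trans ?_
      rw [smul_eq_mul]
      refine Nat.mul_le_mul_right _ ?_
      rw [← Set.ncard_eq_toFinset_card _ hAfin]
      exact hAcard
    refine ⟨(hAfin.union hUfin).subset hsub, ?_⟩
    refine (Set.ncard_le_ncard hsub (hAfin.union hUfin)).trans ?_
    refine (Set.ncard_union_le _ _).trans ?_
    omega
  induction j with
  | zero =>
    intro γ hγ hD
    have hR : 1 ≤ R := by
      have h1 : γ ∈ {β ∈ S | fld β = fld γ} := ⟨hγ, rfl⟩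
      have h2 : 0 < {β ∈ S | fld β = fld γ}.ncard := by
        rw [Set.ncard_pos (hfin _)]
        exact ⟨γ, h1⟩
      exact h2.trans_le (hcard _)
    obtain ⟨h1, h2⟩ := main 0 0 (fun γ' hγ' hD' => by
      have := hSD γ' hγ'
      rw [pow_zero, one_mul] at hD'
      omega) γ hγ hD
    refine ⟨h1, h2.trans ?_⟩
    rw [zero_add, pow_one, mul_zero, mul_zero, add_zero]
    exact Nat.le_mul_of_pos_right _ (Nat.succ_pos B)
  | succ j ih =>
    intro γ hγ hD
    obtain ⟨h1, h2⟩ := main (j + 1) _ ih γ hγ hD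
    refine ⟨h1, h2.trans ?_⟩
    have hR : 1 ≤ R := by
      have h1 : γ ∈ {β ∈ S | fld β = fld γ} := ⟨hγ, rfl⟩
      have h2 : 0 < {β ∈ S | fld β = fld γ}.ncard := by
        rw [Set.ncard_pos (hfin _)]
        exact ⟨γ, h1⟩
      exact h2.trans_le (hcard _)
    set X := (R * (B + 1)) ^ (j + 1) with hX
    have hX1 : 1 ≤ X := Nat.one_le_pow _ _ (Nat.mul_pos hR (Nat.succ_pos B))
    rw [pow_succ (R * (B + 1)) (j + 1), ← hX]
    calc R + R * (B * X) ≤ R * X + R * (B * X) :=
          Nat.add_le_add_right (Nat.le_mul_of_pos_right _ hX1) _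
      _ = X * (R * (B + 1)) := by ring

/-- the number of points of the `m`-th preimage -/
lemma preimage_bound {V : Type*} (f : V → V) (B : ℕ)
    (hfib : ∀ γ, {β | f β = γ}.Finite) (hfibcard : ∀ γ, {β | f β = γ}.ncard ≤ B) (α : V) (m : ℕ) :
    {β | f^[m] β = α}.Finite ∧ {β | f^[m] β = α}.ncard ≤ B ^ m := by
  classical
  induction m with
  | zero =>
    have h1 : {β | f^[0] β = α} = {α} := by
      ext β
      simp
    rw [h1]
    simp
  | succ m ih =>
    obtain ⟨h1, h2⟩ := ih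
    have h3 : {β | f^[m + 1] β = α} = ⋃ γ ∈ h1.toFinset, {β | f β = γ} := by
      ext β
      simp only [Set.mem_setOf_eq, Set.mem_iUnion, Set.Finite.mem_toFinset,
        Function.iterate_succ_apply]
      constructor
      · intro h
        exact ⟨f β, h, rfl⟩
      · rintro ⟨γ, hγ, h⟩
        rw [h]
        exact hγ
    rw [h3]
    refine ⟨Set.Finite.biUnion (Finset.finite_toSet _) fun δ _ => hfib δ, ?_⟩
    refine (Finset.set_ncard_biUnion_le _ _).trans ?_
    refine (Finset.sum_le_card_nsmul _ _ B fun γ _ => hfibcard γ).trans ?_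
    rw [smul_eq_mul, pow_succ]
    refine Nat.mul_le_mul_right _ ?_
    rw [← Set.ncard_eq_toFinset_card _ h1]
    exact h2

/-- the number of nodes of degree at most `D` of the whole tree -/
theorem backward_bound {V Φ : Type*} [PartialOrder Φ] (f : V → V) (fld : V → Φ) (deg : V → ℕ)
    (D R B m₀ j : ℕ) (α : V)
    (hmono : ∀ β, fld (f β) ≤ fld β)
    (hdeg : ∀ β, fld (f β) < fld β → 2 * deg (f β) ≤ deg β)
    (hdegmono : ∀ β γ, fld β ≤ fld γ → deg β ≤ deg γ)
    (hpos : ∀ β, 1 ≤ deg β)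
    (hfin : ∀ E : Φ, {β | fld β = E ∧ deg β ≤ D ∧ ∃ n, m₀ ≤ n ∧ f^[n] β = α}.Finite)
    (hcard : ∀ E : Φ, {β | fld β = E ∧ deg β ≤ D ∧ ∃ n, m₀ ≤ n ∧ f^[n] β = α}.ncard ≤ R)
    (hfib : ∀ γ, {β | f β = γ}.Finite) (hfibcard : ∀ γ, {β | f β = γ}.ncard ≤ B)
    (hj : D < 2 ^ (j + 1)) :
    {β | deg β ≤ D ∧ ∃ n, f^[n] β = α}.Finite ∧
    {β | deg β ≤ D ∧ ∃ n, f^[n] β = α}.ncard ≤
      (B + 1) ^ m₀ * (1 + (R * (B + 1)) ^ (j + 1)) := by
  classical
  set S : Set V := {β | deg β ≤ D ∧ ∃ n, m₀ ≤ n ∧ f^[n] β = α} with hS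
  have hSE : ∀ E : Φ, {β ∈ S | fld β = E} =
      {β | fld β = E ∧ deg β ≤ D ∧ ∃ n, m₀ ≤ n ∧ f^[n] β = α} := by
    intro E
    ext β
    simp only [hS, Set.mem_setOf_eq]
    tauto
  have htree := tree_bound f fld deg S D R B hmono hdeg
    (fun β γ h => le_antisymm (hdegmono _ _ h.le) (hdegmono _ _ h.ge)) hdegmono
    (fun β hβ => hβ.1)
    (by
      rintro β γ ⟨_, n, hn, hγ⟩ hβγ hβ
      refine ⟨hβ, n + 1, by omega, ?_⟩
      rw [Function.iterate_succ_apply, hβγ, hγ])
    (fun E => by rw [hSE]; exact hfin E) (fun E => by rw [hSE]; exact hcard E) hfib hfibcard j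
  set X := (R * (B + 1)) ^ (j + 1) with hX
  obtain ⟨hm1, hm2⟩ := preimage_bound f B hfib hfibcard α m₀
  set G := hm1.toFinset.filter (fun γ => deg γ ≤ D) with hG
  have hGS : ∀ γ ∈ G, γ ∈ S := by
    intro γ hγ
    rw [hG, Finset.mem_filter, Set.Finite.mem_toFinset] at hγ
    exact ⟨hγ.2, m₀, le_rfl, hγ.1⟩
  have hG1 : ∀ γ ∈ G, {β ∈ S | ∃ n, f^[n] β = γ}.Finite ∧
      {β ∈ S | ∃ n, f^[n] β = γ}.ncard ≤ X := by
    intro γ hγ
    refine htree γ (hGS γ hγ) (hj.trans_le ?_)
    exact Nat.le_mul_of_pos_right _ (hpos γ)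
  set U₁ : Set V := ⋃ m ∈ Finset.range m₀, {β | f^[m] β = α} with hU₁
  set U₂ : Set V := ⋃ γ ∈ G, {β ∈ S | ∃ n, f^[n] β = γ} with hU₂
  have hitermono : ∀ n β, fld (f^[n] β) ≤ fld β := by
    intro n
    induction n with
    | zero => intro β; exact le_rfl
    | succ n ih =>
      intro β
      rw [Function.iterate_succ_apply]
      exact (ih (f β)).trans (hmono β)
  have hsub : {β | deg β ≤ D ∧ ∃ n, f^[n] β = α} ⊆ U₁ ∪ U₂ := by
    rintro β ⟨hβ, n, hn⟩
    by_cases h : n < m₀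
    · left
      rw [hU₁]
      simp only [Set.mem_iUnion]
      exact ⟨n, Finset.mem_range.mpr h, hn⟩
    · right
      push Not at h
      rw [hU₂]
      simp only [Set.mem_iUnion]
      refine ⟨f^[n - m₀] β, ?_, ⟨hβ, n, h, hn⟩, n - m₀, rfl⟩
      rw [hG, Finset.mem_filter, Set.Finite.mem_toFinset]
      refine ⟨?_, (hdegmono _ _ (hitermono _ β)).trans hβ⟩
      change f^[m₀] (f^[n - m₀] β) = α
      rw [← Function.iterate_add_apply, Nat.add_sub_cancel' h]
      exact hn
  have hU₁f : U₁.Finite := Set.Finite.biUnion (Finset.finite_toSet _) fun m _ =>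
    (preimage_bound f B hfib hfibcard α m).1
  have hU₂f : U₂.Finite := Set.Finite.biUnion (Finset.finite_toSet _) fun γ hγ => (hG1 γ hγ).1
  have hU₁c : U₁.ncard ≤ (B + 1) ^ m₀ := by
    refine (Finset.set_ncard_biUnion_le _ _).trans ?_
    refine (Finset.sum_le_sum fun m _ =>
      (preimage_bound f B hfib hfibcard α m).2).trans ?_
    have hgeom : ∀ m : ℕ, ∑ i ∈ Finset.range m, B ^ i ≤ (B + 1) ^ m := by
      intro m
      induction m with
      | zero => simp
      | succ m ih =>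
        rw [Finset.sum_range_succ, pow_succ (B + 1) m, mul_add, mul_one]
        have h1 : B ^ m ≤ (B + 1) ^ m * B + 0 ∨ B = 0 := by
          rcases Nat.eq_zero_or_pos B with h | h
          · exact Or.inr h
          · left
            rw [add_zero]
            exact (Nat.pow_le_pow_left (Nat.le_succ B) m).trans (Nat.le_mul_of_pos_right _ h)
        rcases h1 with h1 | h1
        · omega
        · subst h1
          rcases Nat.eq_zero_or_pos m with h2 | h2
          · subst h2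
            simp
          · have h3 : (0 : ℕ) ^ m = 0 := zero_pow (by omega)
            rw [h3]
            simpa using ih
    exact hgeom m₀
  have hU₂c : U₂.ncard ≤ (B + 1) ^ m₀ * X := by
    refine (Finset.set_ncard_biUnion_le _ _).trans ?_
    refine (Finset.sum_le_card_nsmul _ _ X fun γ hγ => (hG1 γ hγ).2).trans ?_
    rw [smul_eq_mul]
    refine Nat.mul_le_mul_right _ ((Finset.card_filter_le _ _).trans ?_)
    rw [← Set.ncard_eq_toFinset_card _ hm1]
    exact hm2.trans (Nat.pow_le_pow_left (Nat.le_succ B) m₀)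
  refine ⟨(hU₁f.union hU₂f).subset hsub, ?_⟩
  refine (Set.ncard_le_ncard hsub (hU₁f.union hU₂f)).trans ?_
  refine (Set.ncard_union_le _ _).trans ?_
  rw [mul_add, mul_one]
  exact Nat.add_le_add hU₁c hU₂c

end Pool.Agent.D0H82.DL
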