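import Mathlib
import Pool.Agent.D0H82.DL.Fld
import Pool.Agent.D0H82.DL.Tree
import Pool.Agent.D0H82.DL.Fib

/-!
The map on the points over the algebraic closure and the count of the points of bounded degree of
a backward orbit.
-/

set_option autoImplicit false
set_option linter.unusedSectionVars false

namespace Pool.Agent.D0H82.DL

open MvPolynomial NumberField Module Filter Topology Pool.Agent.W238.Leh

open scoped LinearAlgebra.Projectivization

noncomputable section

variable {K : Type} [Field K] [NumberField K] {N d : ℕ}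
  {F : Fin (N + 1) → MvPolynomial (Fin (N + 1)) K}

/-- the map on the points -/
def phi (hmor : ∀ z : Fin (N + 1) → AlgebraicClosure K, (∀ i, aeval z (F i) = 0) → z = 0)
    (P : ℙ (AlgebraicClosure K) (Fin (N + 1) → AlgebraicClosure K)) :
    ℙ (AlgebraicClosure K) (Fin (N + 1) → AlgebraicClosure K) :=
  Projectivization.mk _ (act F P.rep) (act_ne_zero' hmor P.rep_nonzero)

variable (hmor : ∀ z : Fin (N + 1) → AlgebraicClosure K, (∀ i, aeval z (F i) = 0) → z = 0)

lemma mk_eq_iff {n : ℕ} {P : ℙ (AlgebraicClosure K) (Fin n → AlgebraicClosure K)}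
    {x : Fin n → AlgebraicClosure K} (hx : x ≠ 0) :
    Projectivization.mk _ x hx = P ↔ ∃ c : AlgebraicClosure K, c ≠ 0 ∧ x = c • P.rep := by
  constructor
  · intro h
    have h1 : Projectivization.mk (AlgebraicClosure K) x hx =
        Projectivization.mk _ P.rep P.rep_nonzero := by
      rw [h, Projectivization.mk_rep]
    rw [Projectivization.mk_eq_mk_iff'] at h1
    obtain ⟨c, hc⟩ := h1
    refine ⟨c, ?_, hc.symm⟩
    rintro rfl
    rw [zero_smul] at hc
    exact hx hc.symm
  · rintro ⟨c, hc, h⟩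
    rw [← Projectivization.mk_rep P, Projectivization.mk_eq_mk_iff']
    exact ⟨c, h.symm⟩

lemma iter_phi (hF : ∀ i, (F i).IsHomogeneous d) (n : ℕ)
    (P : ℙ (AlgebraicClosure K) (Fin (N + 1) → AlgebraicClosure K)) :
    ∃ c : AlgebraicClosure K, c ≠ 0 ∧ (act F)^[n] P.rep = c • ((phi hmor)^[n] P).rep := by
  induction n with
  | zero => exact ⟨1, one_ne_zero, by simp⟩
  | succ n ih =>
    obtain ⟨c, hc, h⟩ := ih
    have h1 : (phi hmor) ((phi hmor)^[n] P) = (phi hmor)^[n + 1] P :=
      (Function.iterate_succ_apply' _ _ _).symm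
    obtain ⟨c', hc', h'⟩ := (mk_eq_iff (act_ne_zero' hmor
      ((phi hmor)^[n] P).rep_nonzero)).mp h1
    refine ⟨c ^ d * c', mul_ne_zero (pow_ne_zero _ hc) hc', ?_⟩
    rw [Function.iterate_succ_apply', h, act_smul hF, h', smul_smul]

lemma iter_phi_eq_iff (hF : ∀ i, (F i).IsHomogeneous d) (n : ℕ)
    (P : ℙ (AlgebraicClosure K) (Fin (N + 1) → AlgebraicClosure K))
    {α : Fin (N + 1) → AlgebraicClosure K} (hα : α ≠ 0) :
    (phi hmor)^[n] P = Projectivization.mk _ α hα ↔
      ∃ c : AlgebraicClosure K, c ≠ 0 ∧ (act F)^[n] P.rep = c • α := by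
  obtain ⟨c, hc, h⟩ := iter_phi hmor hF n P
  rw [eq_comm, mk_eq_iff hα]
  constructor
  · rintro ⟨b, hb, h'⟩
    refine ⟨c * b⁻¹, mul_ne_zero hc (inv_ne_zero hb), ?_⟩
    rw [h, h', smul_smul, mul_assoc, inv_mul_cancel₀ hb, mul_one]
  · rintro ⟨b, hb, h'⟩
    refine ⟨b⁻¹ * c, mul_ne_zero (inv_ne_zero hb) hc, ?_⟩
    rw [← smul_smul, ← h, h', smul_smul, inv_mul_cancel₀ hb, one_smul]

lemma fieldOf_phi_le (P : ℙ (AlgebraicClosure K) (Fin (N + 1) → AlgebraicClosure K))
    (hF : ∀ i, (F i).IsHomogeneous d) :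
    fieldOf K (phi hmor P) ≤ fieldOf K P := by
  obtain ⟨c, hc, h⟩ := (mk_eq_iff (act_ne_zero' hmor P.rep_nonzero)).mp
    (rfl : Projectivization.mk _ (act F P.rep) _ = phi hmor P)
  refine fieldOf_le (x := fun i => ((act F (vec P) i : fieldOf K P) : AlgebraicClosure K))
    (c := c⁻¹ * P.rep (j0 P) ^ d) ?_ (fun i => (act F (vec P) i : fieldOf K P).2)
  have h1 := act_map (F := F) (fieldOf K P).val (vec P)
  have h2 : (fun i => (fieldOf K P).val (vec P i)) =
      fun i => ((vec P i : fieldOf K P) : AlgebraicClosure K) := rfl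
  have h3 : (fun i => (fieldOf K P).val (act F (vec P) i)) =
      fun i => ((act F (vec P) i : fieldOf K P) : AlgebraicClosure K) := rfl
  rw [h2, h3] at h1
  rw [← h1, ← smul_smul, ← act_smul hF, ← rep_eq_vec, h, smul_smul, inv_mul_cancel₀ hc, one_smul]
  rfl

/-- the degree of a point -/
def degP {n : ℕ} (P : ℙ (AlgebraicClosure K) (Fin n → AlgebraicClosure K)) : ℕ :=
  finrank K (fieldOf K P)

lemma degP_pos {n : ℕ} (P : ℙ (AlgebraicClosure K) (Fin n → AlgebraicClosure K)) :
    1 ≤ degP P := finrank_pos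

lemma degP_mono {n : ℕ} {P Q : ℙ (AlgebraicClosure K) (Fin n → AlgebraicClosure K)}
    (h : fieldOf K P ≤ fieldOf K Q) : degP P ≤ degP Q :=
  IntermediateField.finrank_le_of_le_right h

lemma degP_double {n : ℕ} {P Q : ℙ (AlgebraicClosure K) (Fin n → AlgebraicClosure K)}
    (h : fieldOf K P < fieldOf K Q) : 2 * degP P ≤ degP Q := by
  obtain ⟨k, hk⟩ := IntermediateField.finrank_dvd_of_le_right (K := K) h.le
  change finrank K (fieldOf K Q) = finrank K (fieldOf K P) * k at hk
  have h1 : finrank K (fieldOf K P) ≠ finrank K (fieldOf K Q) := by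
    intro h2
    exact h.ne (IntermediateField.eq_of_le_of_finrank_eq h.le h2)
  have h3 : 0 < finrank K (fieldOf K Q) := finrank_pos
  have h4 : 2 ≤ k := by
    by_contra hcon
    interval_cases k
    · omega
    · omega
  change 2 * finrank K (fieldOf K P) ≤ finrank K (fieldOf K Q)
  rw [hk, mul_comm]
  exact Nat.mul_le_mul_left _ h4

include hmor in
/-- few points of the deep part of a backward orbit have a given field of definition -/
lemma same_field (hd : 2 ≤ d) (hF : ∀ i, (F i).IsHomogeneous d) {C₀ : ℝ} (hC₀ : 0 < C₀)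
    (hgen : ∀ (L : Type) [Field L] [NumberField L] [Algebra K L],
      (∀ x : Fin (N + 1) → L, x ≠ 0 →
        Tendsto (fun n : ℕ => Height.logHeight ((act F)^[n] x) /
          ((finrank ℚ L : ℝ) * (d : ℝ) ^ n)) atTop (𝓝 (canH F d x))) ∧
      {P : ℙ L (Fin (N + 1) → L) | canH F d P.rep < 1 / (C₀ * finrank K L)}.Finite ∧
      ({P : ℙ L (Fin (N + 1) → L) |
          canH F d P.rep < 1 / (C₀ * finrank K L)}.ncard : ℝ) ≤
        C₀ * (finrank K L : ℝ) ^ (N + 1))
    {L : Type} [Field L] [NumberField L] [Algebra K L] (ψ : L →ₐ[K] AlgebraicClosure K)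
    {a : Fin (N + 1) → L} (ha : a ≠ 0) {D m₀ : ℕ}
    (hm₀ : C₀ * D * canH F d a < d ^ m₀) (E : IntermediateField K (AlgebraicClosure K)) :
    {P : ℙ (AlgebraicClosure K) (Fin (N + 1) → AlgebraicClosure K) | fieldOf K P = E ∧
      degP P ≤ D ∧ ∃ n, m₀ ≤ n ∧ ∃ c : AlgebraicClosure K, c ≠ 0 ∧
        (act F)^[n] P.rep = c • fun i => ψ (a i)}.Finite ∧
    ({P : ℙ (AlgebraicClosure K) (Fin (N + 1) → AlgebraicClosure K) | fieldOf K P = E ∧
      degP P ≤ D ∧ ∃ n, m₀ ≤ n ∧ ∃ c : AlgebraicClosure K, c ≠ 0 ∧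
        (act F)^[n] P.rep = c • fun i => ψ (a i)}.ncard : ℝ) ≤ C₀ * (D : ℝ) ^ (N + 1) := by
  classical
  set A := {P : ℙ (AlgebraicClosure K) (Fin (N + 1) → AlgebraicClosure K) | fieldOf K P = E ∧
      degP P ≤ D ∧ ∃ n, m₀ ≤ n ∧ ∃ c : AlgebraicClosure K, c ≠ 0 ∧
        (act F)^[n] P.rep = c • fun i => ψ (a i)} with hA
  rcases A.eq_empty_or_nonempty with h0 | ⟨P₀, hP₀⟩
  · rw [h0]
    refine ⟨Set.finite_empty, ?_⟩
    rw [Set.ncard_empty]
    push_cast
    positivity
  have hE0 : fieldOf K P₀ = E := hP₀.1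
  have hD0 : degP P₀ ≤ D := hP₀.2.1
  subst hE0
  set E := fieldOf K P₀ with hE
  have hfd : FiniteDimensional K E := finDim P₀
  have hnf : NumberField E := NumberField.of_module_finite K E
  have hdegE : finrank K E ≤ D := hD0
  have hposE : 0 < finrank K E := finrank_pos
  -- the vector over `E`
  have hmem : ∀ P ∈ A, ∀ i, P.rep i / P.rep (j0 P) ∈ E := by
    rintro P ⟨h1, _⟩ i
    have h2 : P.rep i / P.rep (j0 P) ∈ fieldOf K P := (vec P i).2
    rw [h1] at h2
    exact h2
  let v : ∀ P : ℙ (AlgebraicClosure K) (Fin (N + 1) → AlgebraicClosure K), Fin (N + 1) → E :=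
    fun P => if h : P ∈ A then fun i => ⟨P.rep i / P.rep (j0 P), hmem P h i⟩ else 1
  have hv : ∀ P ∈ A, (fun i => ((v P i : E) : AlgebraicClosure K)) =
      (P.rep (j0 P))⁻¹ • P.rep := by
    intro P hP
    funext i
    have : v P = fun i => ⟨P.rep i / P.rep (j0 P), hmem P hP i⟩ := dif_pos hP
    rw [this]
    change P.rep i / P.rep (j0 P) = (P.rep (j0 P))⁻¹ * P.rep i
    rw [div_eq_mul_inv, mul_comm]
  have hv0 : ∀ P, v P ≠ 0 := by
    intro P h
    by_cases hP : P ∈ A
    · have h1 := hv P hP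
      rw [h] at h1
      have h2 := congrFun h1 (j0 P)
      simp only [Pi.zero_apply, ZeroMemClass.coe_zero, Pi.smul_apply, smul_eq_mul] at h2
      rw [inv_mul_cancel₀ (rep_j0 P)] at h2
      exact zero_ne_one h2
    · have h1 : v P = 1 := dif_neg hP
      rw [h1] at h
      exact one_ne_zero (congrFun h 0)
  let g : ℙ (AlgebraicClosure K) (Fin (N + 1) → AlgebraicClosure K) → ℙ E (Fin (N + 1) → E) :=
    fun P => Projectivization.mk E (v P) (hv0 P)
  have hinj : Set.InjOn g A := by
    intro P hP Q hQ hPQ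
    have h1 : Projectivization.mk E (v P) (hv0 P) = Projectivization.mk E (v Q) (hv0 Q) := hPQ
    rw [Projectivization.mk_eq_mk_iff'] at h1
    obtain ⟨b, hb⟩ := h1
    have h2 : (b : AlgebraicClosure K) • (fun i => ((v Q i : E) : AlgebraicClosure K)) =
        fun i => ((v P i : E) : AlgebraicClosure K) := by
      funext i
      have := congrFun hb i
      change (b : AlgebraicClosure K) * (v Q i : E) = (v P i : E)
      rw [← this]
      rfl
    rw [hv P hP, hv Q hQ, smul_smul] at h2
    rw [← Projectivization.mk_rep P, ← Projectivization.mk_rep Q,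
      Projectivization.mk_eq_mk_iff']
    refine ⟨P.rep (j0 P) * (b * (Q.rep (j0 Q))⁻¹), ?_⟩
    rw [← smul_smul, h2, smul_smul, mul_inv_cancel₀ (rep_j0 P), one_smul]
  obtain ⟨htend, hfin, hcount⟩ := hgen E
  have hneE : ∀ x : Fin (N + 1) → E, x ≠ 0 → act F x ≠ 0 := by
    intro x hx h
    have h1 := act_map (F := F) E.val x
    rw [h] at h1
    have h2 : (fun i => E.val (x i)) ≠ 0 := by
      intro h3
      apply hx
      funext i
      have := congrFun h3 i
      simpa using this
    apply act_ne_zero' hmor h2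
    rw [h1]
    funext i
    simp
  have himg : g '' A ⊆ {P : ℙ E (Fin (N + 1) → E) |
      canH F d P.rep < 1 / (C₀ * finrank K E)} := by
    rintro _ ⟨P, hP, rfl⟩
    change canH F d (g P).rep < 1 / (C₀ * finrank K E)
    -- the representative
    have h1 : canH F d (g P).rep = canH F d (v P) := by
      have h2 : Projectivization.mk E (g P).rep (g P).rep_nonzero =
          Projectivization.mk E (v P) (hv0 P) := Projectivization.mk_rep _
      rw [Projectivization.mk_eq_mk_iff'] at h2
      obtain ⟨b, hb⟩ := h2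
      have hb0 : b ≠ 0 := by
        rintro rfl
        rw [zero_smul] at hb
        exact (g P).rep_nonzero hb.symm
      rw [← hb, canH_smul hF hb0]
    rw [h1]
    obtain ⟨_, hPD, n, hn, c, hc, hcn⟩ := hP
    have hPA : P ∈ A := ⟨‹_›, hPD, n, hn, c, hc, hcn⟩
    -- the iterate
    have h3 : canH F d ((act F)^[n] (v P)) = canH F d a := by
      have h4 : (fun i => E.val ((act F)^[n] (v P) i)) = (act F)^[n] ((P.rep (j0 P))⁻¹ • P.rep) := by
        rw [← iter_map (F := F) E.val (v P) n]
        congr 1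
        exact hv P hPA
      obtain ⟨b', hb', h5⟩ := iter_smul hF (inv_ne_zero (rep_j0 P)) P.rep n
      rw [h5, hcn, smul_smul] at h4
      exact canH_eq_of_prop hF E.val ψ ha (mul_ne_zero hb' hc) h4
    have h6 := canH_iter_of (F := F) hd hneE htend (hv0 P) n
    rw [h3] at h6
    -- the inequality
    have hd1 : (1 : ℝ) ≤ d := by
      have : 1 ≤ d := by omega
      exact_mod_cast this
    have h7 : C₀ * D * canH F d a < d ^ n := hm₀.trans_le (pow_le_pow_right₀ hd1 hn)
    have h8 : (0 : ℝ) < d ^ n := by positivity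
    rw [h6] at h7
    have h9 : C₀ * D * canH F d (v P) < 1 := by
      have h10 : (d : ℝ) ^ n * (C₀ * D * canH F d (v P)) < d ^ n * 1 := by
        rw [mul_one]
        calc (d : ℝ) ^ n * (C₀ * D * canH F d (v P)) = C₀ * D * (d ^ n * canH F d (v P)) := by
              ring
          _ < _ := h7
      exact lt_of_mul_lt_mul_left h10 h8.le
    have hfr : (0 : ℝ) < finrank K E := by exact_mod_cast hposE
    have hfrD : (finrank K E : ℝ) ≤ D := by exact_mod_cast hdegE
    rw [lt_div_iff₀ (by positivity)]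
    by_cases hneg : canH F d (v P) < 0
    · have : canH F d (v P) * (C₀ * finrank K E) ≤ 0 :=
        mul_nonpos_of_nonpos_of_nonneg hneg.le (by positivity)
      linarith
    · push Not at hneg
      calc canH F d (v P) * (C₀ * finrank K E) ≤ canH F d (v P) * (C₀ * D) := by gcongr
        _ = C₀ * D * canH F d (v P) := by ring
        _ < 1 := h9
  have hgfin : (g '' A).Finite := hfin.subset himg
  have hAfin : A.Finite := hgfin.of_finite_image hinj
  refine ⟨hAfin, ?_⟩
  have h1 : A.ncard = (g '' A).ncard := hinj.ncard_image.symm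
  have h2 : (g '' A).ncard ≤ {P : ℙ E (Fin (N + 1) → E) |
      canH F d P.rep < 1 / (C₀ * finrank K E)}.ncard := Set.ncard_le_ncard himg hfin
  have h3 : (A.ncard : ℝ) ≤ ({P : ℙ E (Fin (N + 1) → E) |
      canH F d P.rep < 1 / (C₀ * finrank K E)}.ncard : ℝ) := by
    rw [h1]
    exact_mod_cast h2
  refine h3.trans (hcount.trans ?_)
  have hfrD : (finrank K E : ℝ) ≤ D := by exact_mod_cast hdegE
  gcongr

end

end Pool.Agent.D0H82.DL
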