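import Mathlib
import Pool.Agent.D0H82.DL.Pts

/-!
The quasi-polynomial bound for the number of points of bounded degree of a backward orbit.
-/

set_option autoImplicit false

namespace Pool.Agent.D0H82.DL

open MvPolynomial NumberField Module Filter Topology Pool.Agent.W238.Leh

open scoped LinearAlgebra.Projectivization

noncomputable section

/-- the constant -/
def bigC (N B : ℕ) (C₀ : ℝ) : ℝ :=
  9 * Real.log (B + 1) + 4 * Real.log (B + 1) * Real.log (1 + C₀) + 2 +
    5 * Real.log (1 + C₀) + 3 * (N + 1)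

lemma bigC_pos (N B : ℕ) {C₀ : ℝ} (hC₀ : 0 < C₀) : 0 < bigC N B C₀ := by
  have h1 : 0 ≤ Real.log (B + 1) := Real.log_nonneg (by
    have : (0 : ℝ) ≤ B := Nat.cast_nonneg B
    linarith)
  have h2 : 0 ≤ Real.log (1 + C₀) := Real.log_nonneg (by linarith)
  unfold bigC
  positivity

/-- the real estimate -/
lemma real_bound (N B D : ℕ) (hB : 1 ≤ B) (hD : 1 ≤ D) {C₀ h : ℝ} (hC₀ : 0 < C₀) (hh : 0 ≤ h) :
    ∃ m₀ j R : ℕ, C₀ * D * h < 2 ^ m₀ ∧ D < 2 ^ (j + 1) ∧
      (∀ n : ℕ, (n : ℝ) ≤ C₀ * (D : ℝ) ^ (N + 1) → n ≤ R) ∧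
      (((B + 1) ^ m₀ * (1 + (R * (B + 1)) ^ (j + 1)) : ℕ) : ℝ) ≤
        Real.exp (bigC N B C₀ * Real.log (2 + h)) *
          Real.exp (bigC N B C₀ * Real.log (D + 1) ^ 2) := by
  have hBr : (1 : ℝ) ≤ B := by exact_mod_cast hB
  have hDr : (1 : ℝ) ≤ D := by exact_mod_cast hD
  have hl2 := Real.log_two_gt_d9
  have hl2' := Real.log_two_lt_d9
  set l := Real.log (D + 1) with hl
  have hl0 : Real.log 2 ≤ l := Real.log_le_log (by norm_num) (by linarith)
  have hl1 : 2 / 3 ≤ l := by linarith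
  have e2 : l ≤ 3 / 2 * l ^ 2 := by
    have h1 := mul_le_mul_of_nonneg_left hl1 (show 0 ≤ l by linarith)
    have h2 : l ^ 2 = l * l := sq l
    linarith
  have e1 : (1 : ℝ) ≤ 9 / 4 * l ^ 2 := by linarith
  set b := Real.log ((B : ℝ) + 1) with hb
  have hb0 : 0 ≤ b := Real.log_nonneg (by linarith)
  set c := Real.log (1 + C₀) with hc
  have hc0 : 0 ≤ c := Real.log_nonneg (by linarith)
  set t := Real.log (2 + h) with ht
  have ht0 : 0 ≤ t := Real.log_nonneg (by linarith)
  set x := C₀ * D * h with hx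
  have hx0 : 0 ≤ x := by positivity
  -- `m₀`
  set m₀ := ⌊Real.log (1 + x) / Real.log 2⌋₊ + 1 with hm₀
  have hlx0 : 0 ≤ Real.log (1 + x) := Real.log_nonneg (by linarith)
  have hlx : Real.log (1 + x) ≤ c + l + t := by
    have h1 : 1 + x ≤ (1 + C₀) * (D + 1) * (2 + h) := by
      have e1 : (1 + C₀) * (D + 1) * (2 + h) = C₀ * D * h + 2 * (C₀ * D) + C₀ * (2 + h) +
          D * (2 + h) + (2 + h) := by ring
      have e2 : 0 ≤ C₀ * D := by positivity
      have e3 : 0 ≤ C₀ * (2 + h) := by positivity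
      have e4 : 0 ≤ (D : ℝ) * (2 + h) := by positivity
      rw [e1, hx]
      linarith
    have h2 := Real.log_le_log (by linarith) h1
    rw [Real.log_mul (by positivity) (by positivity),
      Real.log_mul (by positivity) (by positivity)] at h2
    exact h2
  have hm1 : (m₀ : ℝ) ≤ 1 + (3 / 2) * (c + l + t) := by
    rw [hm₀]
    push_cast
    have h1 := Nat.floor_le (show 0 ≤ Real.log (1 + x) / Real.log 2 by positivity)
    have h2 : Real.log (1 + x) / Real.log 2 ≤ (3 / 2) * (c + l + t) := by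
      rw [div_le_iff₀ (by linarith)]
      have h3 : 0 ≤ c + l + t := by linarith
      nlinarith
    linarith
  have hm2 : x < 2 ^ m₀ := by
    have h1 := Nat.lt_floor_add_one (Real.log (1 + x) / Real.log 2)
    rw [div_lt_iff₀ (by linarith)] at h1
    have h2 : Real.log (1 + x) < Real.log (2 ^ m₀) := by
      rw [Real.log_pow, hm₀]
      push_cast
      exact h1
    have h3 := (Real.log_lt_log_iff (by linarith) (by positivity)).mp h2
    linarith
  -- `j`
  set j := Nat.log 2 D with hj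
  have hj1 : D < 2 ^ (j + 1) := Nat.lt_pow_succ_log_self (by norm_num) D
  have hj2 : ((j + 1 : ℕ) : ℝ) ≤ 3 * l := by
    have h1 : 2 ^ j ≤ D := Nat.pow_log_le_self 2 (by omega)
    have h2 : ((2 : ℝ)) ^ j ≤ D := by exact_mod_cast h1
    have h3 := Real.log_le_log (by positivity) h2
    rw [Real.log_pow] at h3
    have h4 : Real.log D ≤ l := Real.log_le_log (by linarith) (by linarith)
    push_cast
    have h5 : (j : ℝ) * Real.log 2 ≤ l := h3.trans h4
    have h6 : (j : ℝ) ≤ (3 / 2) * l := by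
      have : (0 : ℝ) ≤ j := Nat.cast_nonneg j
      nlinarith
    linarith
  -- `R`
  set R := ⌊C₀ * (D : ℝ) ^ (N + 1)⌋₊ with hR
  refine ⟨m₀, j, R, hm2, hj1, fun n hn => Nat.le_floor hn, ?_⟩
  have hR1 : (R : ℝ) ≤ C₀ * (D : ℝ) ^ (N + 1) := Nat.floor_le (by positivity)
  have hR2 : (R : ℝ) * (B + 1) ≤ Real.exp (c + (N + 1) * l + b) := by
    rw [Real.exp_add, Real.exp_add, hc, hb, Real.exp_log (by linarith), Real.exp_log (by linarith)]
    refine mul_le_mul_of_nonneg_right ?_ (by linarith)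
    have h1 : Real.exp (((N : ℝ) + 1) * l) = ((D : ℝ) + 1) ^ (N + 1) := by
      have : ((N : ℝ) + 1) = ((N + 1 : ℕ) : ℝ) := by push_cast; ring
      rw [this, Real.exp_nat_mul, hl, Real.exp_log (by linarith)]
    rw [h1]
    refine hR1.trans ?_
    have h2 : (D : ℝ) ^ (N + 1) ≤ ((D : ℝ) + 1) ^ (N + 1) :=
      pow_le_pow_left₀ (by linarith) (by linarith) _
    have h3 : (0 : ℝ) ≤ ((D : ℝ) + 1) ^ (N + 1) := by positivity
    calc C₀ * (D : ℝ) ^ (N + 1) ≤ C₀ * ((D : ℝ) + 1) ^ (N + 1) := by gcongr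
      _ ≤ (1 + C₀) * ((D : ℝ) + 1) ^ (N + 1) := by
          refine mul_le_mul_of_nonneg_right (by linarith) h3
  have hy0 : 0 ≤ c + (N + 1) * l + b := by positivity
  have h1 : ((R : ℝ) * (B + 1)) ^ (j + 1) ≤ Real.exp (3 * l * (c + (N + 1) * l + b)) := by
    calc ((R : ℝ) * (B + 1)) ^ (j + 1) ≤ (Real.exp (c + (N + 1) * l + b)) ^ (j + 1) :=
          pow_le_pow_left₀ (by positivity) hR2 _
      _ = Real.exp (((j + 1 : ℕ) : ℝ) * (c + (N + 1) * l + b)) := (Real.exp_nat_mul _ _).symm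
      _ ≤ _ := by
          apply Real.exp_le_exp.mpr
          exact mul_le_mul_of_nonneg_right hj2 hy0
  have h2 : (1 : ℝ) + ((R : ℝ) * (B + 1)) ^ (j + 1) ≤
      Real.exp (l + 3 * l * (c + (N + 1) * l + b)) := by
    have h3 : (1 : ℝ) ≤ Real.exp (3 * l * (c + (N + 1) * l + b)) :=
      Real.one_le_exp (by positivity)
    have h4 : (2 : ℝ) ≤ Real.exp l := by
      rw [hl, Real.exp_log (by linarith)]
      linarith
    rw [Real.exp_add]
    nlinarith
  have h3 : ((B : ℝ) + 1) ^ m₀ ≤ Real.exp (b * (1 + (3 / 2) * (c + l + t))) := by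
    calc ((B : ℝ) + 1) ^ m₀ = Real.exp ((m₀ : ℝ) * b) := by
          rw [Real.exp_nat_mul, hb, Real.exp_log (by linarith)]
      _ ≤ _ := by
          apply Real.exp_le_exp.mpr
          rw [mul_comm]
          exact mul_le_mul_of_nonneg_left hm1 hb0
  push_cast
  calc ((B : ℝ) + 1) ^ m₀ * (1 + ((R : ℝ) * (B + 1)) ^ (j + 1)) ≤
      Real.exp (b * (1 + (3 / 2) * (c + l + t))) *
        Real.exp (l + 3 * l * (c + (N + 1) * l + b)) :=
        mul_le_mul h3 h2 (by positivity) (Real.exp_nonneg _)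
    _ = Real.exp (b * (1 + (3 / 2) * (c + l + t)) + (l + 3 * l * (c + (N + 1) * l + b))) :=
        (Real.exp_add _ _).symm
    _ ≤ Real.exp (bigC N B C₀ * t + bigC N B C₀ * l ^ 2) := by
        apply Real.exp_le_exp.mpr
        have hbc : 0 ≤ b * c := mul_nonneg hb0 hc0
        have e3 : b ≤ 9 / 4 * (b * l ^ 2) := by
          calc b = b * 1 := (mul_one b).symm
            _ ≤ b * (9 / 4 * l ^ 2) := mul_le_mul_of_nonneg_left e1 hb0
            _ = _ := by ring
        have e4 : b * c ≤ 9 / 4 * ((b * c) * l ^ 2) := by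
          calc b * c = b * c * 1 := (mul_one _).symm
            _ ≤ b * c * (9 / 4 * l ^ 2) := mul_le_mul_of_nonneg_left e1 hbc
            _ = _ := by ring
        have e5 : b * l ≤ 3 / 2 * (b * l ^ 2) := by
          calc b * l ≤ b * (3 / 2 * l ^ 2) := mul_le_mul_of_nonneg_left e2 hb0
            _ = _ := by ring
        have e6 : l * c ≤ 3 / 2 * (c * l ^ 2) := by
          calc l * c ≤ (3 / 2 * l ^ 2) * c := mul_le_mul_of_nonneg_right e2 hc0
            _ = _ := by ring
        have hN0 : (0 : ℝ) ≤ N := Nat.cast_nonneg N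
        have e7 : (3 / 2) * (b * t) ≤ bigC N B C₀ * t := by
          have h4 : 3 / 2 * b ≤ bigC N B C₀ := by
            unfold bigC
            rw [← hb, ← hc]
            linarith
          calc (3 / 2) * (b * t) = (3 / 2 * b) * t := by ring
            _ ≤ _ := mul_le_mul_of_nonneg_right h4 ht0
        have e8 : bigC N B C₀ * l ^ 2 = 9 * (b * l ^ 2) + 4 * ((b * c) * l ^ 2) + 2 * l ^ 2 +
            5 * (c * l ^ 2) + 3 * (N + 1) * l ^ 2 := by
          unfold bigC
          rw [← hb, ← hc]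
          ring
        have e0 : b * (1 + (3 / 2) * (c + l + t)) + (l + 3 * l * (c + (N + 1) * l + b)) =
            b + 3 / 2 * (b * c) + 3 / 2 * (b * l) + 3 / 2 * (b * t) + l + 3 * (l * c) +
            3 * (N + 1) * l ^ 2 + 3 * (b * l) := by ring
        have e9 : 0 ≤ (b * c) * l ^ 2 := mul_nonneg hbc (sq_nonneg l)
        have e10 : 0 ≤ c * l ^ 2 := mul_nonneg hc0 (sq_nonneg l)
        have e11 : 0 ≤ l ^ 2 := sq_nonneg l
        rw [e0, e8]
        linarith
    _ = _ := Real.exp_add _ _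

variable {K : Type} [Field K] [NumberField K]

/-- the points of degree at most `D` over `K` in the backward orbit of the point with coordinate
vector `α` -/
def backSet {N : ℕ} (F : Fin (N + 1) → MvPolynomial (Fin (N + 1)) K)
    (α : Fin (N + 1) → AlgebraicClosure K) (D : ℕ) :
    Set (ℙ (AlgebraicClosure K) (Fin (N + 1) → AlgebraicClosure K)) :=
  {P | finrank K (fieldOf K P) ≤ D ∧ ∃ n : ℕ, ∃ c : AlgebraicClosure K, c ≠ 0 ∧
    (act F)^[n] P.rep = c • α}

/-- the main count -/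
theorem main_count {N d : ℕ} {F : Fin (N + 1) → MvPolynomial (Fin (N + 1)) K} (hd : 2 ≤ d)
    (hF : ∀ i, (F i).IsHomogeneous d)
    (hmor : ∀ z : Fin (N + 1) → AlgebraicClosure K, (∀ i, aeval z (F i) = 0) → z = 0) :
    ∃ C : ℝ, 0 < C ∧ ∀ (L : Type) [Field L] [NumberField L] [Algebra K L],
      (∀ x : Fin (N + 1) → L, x ≠ 0 →
        Tendsto (fun n : ℕ => Height.logHeight ((act F)^[n] x) /
          ((finrank ℚ L : ℝ) * (d : ℝ) ^ n)) atTop (𝓝 (canH F d x))) ∧
      ∀ (ψ : L →ₐ[K] AlgebraicClosure K) (a : Fin (N + 1) → L), a ≠ 0 → ∀ D : ℕ,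
        (backSet F (fun i => ψ (a i)) D).Finite ∧
        ((backSet F (fun i => ψ (a i)) D).ncard : ℝ) ≤
          Real.exp (C * Real.log (2 + canH F d a)) * Real.exp (C * Real.log (D + 1) ^ 2) := by
  classical
  obtain ⟨B, hB, hfib⟩ := fibre_bound hd hF hmor
  obtain ⟨C₀, hC₀, hgen⟩ := general K N d hd F hF hmor 1 one_pos
  have hgen' : ∀ (L : Type) [Field L] [NumberField L] [Algebra K L],
      (∀ x : Fin (N + 1) → L, x ≠ 0 →
        Tendsto (fun n : ℕ => Height.logHeight ((act F)^[n] x) /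
          ((finrank ℚ L : ℝ) * (d : ℝ) ^ n)) atTop (𝓝 (canH F d x))) ∧
      {P : ℙ L (Fin (N + 1) → L) | canH F d P.rep < 1 / (C₀ * finrank K L)}.Finite ∧
      ({P : ℙ L (Fin (N + 1) → L) |
          canH F d P.rep < 1 / (C₀ * finrank K L)}.ncard : ℝ) ≤
        C₀ * (finrank K L : ℝ) ^ (N + 1) := by
    intro L _ _ _
    obtain ⟨h1, h2, h3, _⟩ := hgen L
    refine ⟨h1, h2, h3.trans (le_of_eq ?_)⟩
    congr 1
    rw [← Real.rpow_natCast]
    push_cast
    rfl
  refine ⟨bigC N B C₀, bigC_pos N B hC₀, fun L _ _ _ => ⟨(hgen' L).1, ?_⟩⟩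
  intro ψ a ha D
  set h := canH F d a with hh
  have hh0 : 0 ≤ h := by
    refine ge_of_tendsto' ((hgen' L).1 a ha) fun n => ?_
    have := Height.logHeight_nonneg ((act F)^[n] a)
    positivity
  rcases Nat.eq_zero_or_pos D with hD | hD
  · have h0 : backSet F (fun i => ψ (a i)) D = ∅ := by
      rw [Set.eq_empty_iff_forall_notMem]
      rintro P ⟨hP, _⟩
      have : 0 < finrank K (fieldOf K P) := finrank_pos
      omega
    rw [h0]
    refine ⟨Set.finite_empty, ?_⟩
    rw [Set.ncard_empty]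
    push_cast
    positivity
  obtain ⟨m₀, j, R, hm₀, hj, hR, hreal⟩ := real_bound N B D hB hD hC₀ hh0
  have hα : (fun i => ψ (a i)) ≠ 0 := by
    intro h0
    apply ha
    funext i
    have := congrFun h0 i
    simpa using this
  have hm₀' : C₀ * D * canH F d a < (d : ℝ) ^ m₀ := by
    refine hm₀.trans_le (pow_le_pow_left₀ (by norm_num) ?_ _)
    exact_mod_cast hd
  have hsf := same_field hmor hd hF hC₀ hgen' ψ ha hm₀'
  have hset : ∀ E : IntermediateField K (AlgebraicClosure K),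
      {β : ℙ (AlgebraicClosure K) (Fin (N + 1) → AlgebraicClosure K) | fieldOf K β = E ∧
        degP β ≤ D ∧ ∃ n, m₀ ≤ n ∧ (phi hmor)^[n] β = Projectivization.mk _ _ hα} =
      {P : ℙ (AlgebraicClosure K) (Fin (N + 1) → AlgebraicClosure K) | fieldOf K P = E ∧
      degP P ≤ D ∧ ∃ n, m₀ ≤ n ∧ ∃ c : AlgebraicClosure K, c ≠ 0 ∧
        (act F)^[n] P.rep = c • fun i => ψ (a i)} := by
    intro E
    ext β
    simp only [Set.mem_ofPred_eq, iter_phi_eq_iff hmor hF _ _ hα]
  have hfib' : ∀ γ, {β | phi hmor β = γ}.Finite ∧ {β | phi hmor β = γ}.ncard ≤ B := by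
    intro γ
    have h1 : {β | phi hmor β = γ} =
        {P : ℙ (AlgebraicClosure K) (Fin (N + 1) → AlgebraicClosure K) |
        ∃ c : AlgebraicClosure K, c ≠ 0 ∧ act F P.rep = c • γ.rep} := by
      ext β
      exact mk_eq_iff (act_ne_zero' hmor β.rep_nonzero)
    rw [h1]
    exact hfib γ.rep
  have hback := backward_bound (phi hmor) (fun β => fieldOf K β) degP D R B m₀ j
    (Projectivization.mk _ _ hα) (fun β => fieldOf_phi_le hmor β hF)
    (fun β h1 => degP_double h1) (fun β γ h1 => degP_mono h1) degP_pos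
    (fun E => by rw [hset]; exact (hsf E).1)
    (fun E => by rw [hset]; exact hR _ (hsf E).2)
    (fun γ => (hfib' γ).1) (fun γ => (hfib' γ).2) hj
  have hset' : {β | degP β ≤ D ∧ ∃ n, (phi hmor)^[n] β = Projectivization.mk _ _ hα} =
      backSet F (fun i => ψ (a i)) D := by
    ext β
    simp only [backSet, degP, Set.mem_ofPred_eq, iter_phi_eq_iff hmor hF _ _ hα]
  rw [hset'] at hback
  refine ⟨hback.1, ?_⟩
  refine le_trans ?_ hreal
  exact_mod_cast hback.2

end

end Pool.Agent.D0H82.DL
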