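import Mathlib
import Pool.Agent.D0H82.DL.Main

/-!
The number of irreducible factors of the numerators of `f^n(x) - α`.
-/

set_option autoImplicit false

namespace Pool.Agent.D0H82.DL

open MvPolynomial NumberField Module Filter Topology Pool.Agent.W238.Leh

open scoped LinearAlgebra.Projectivization Polynomial

noncomputable section

variable {K : Type} [Field K]

/-- the forms of degree `d ^ n` of the `n`-th iterate, at `(X, 1)` -/
def iterPol (F : Fin 2 → MvPolynomial (Fin 2) K) (n : ℕ) : Fin 2 → K[X] :=
  (fun u : Fin 2 → K[X] => fun i => aeval u (F i))^[n] ![Polynomial.X, 1]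

/-- the numerator of `f^n(x) - α`, where `α = a 0 / a 1` -/
def numer (F : Fin 2 → MvPolynomial (Fin 2) K) (a : Fin 2 → K) (n : ℕ) : K[X] :=
  Polynomial.C (a 1) * iterPol F n 0 - Polynomial.C (a 0) * iterPol F n 1

lemma natDegree_aeval_le {p : MvPolynomial (Fin 2) K} {d m : ℕ} (hp : p.IsHomogeneous d)
    {u : Fin 2 → K[X]} (hu : ∀ i, (u i).natDegree ≤ m) : (aeval u p).natDegree ≤ m * d := by
  rw [p.as_sum, map_sum]
  refine Polynomial.natDegree_sum_le_of_forall_le _ _ fun s hs => ?_
  have h1 : s.degree = d := by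
    have := hp (mem_support_iff.mp hs)
    rw [← this, Finsupp.degree_eq_weight_one]
    rfl
  rw [aeval_monomial, Finsupp.prod_fintype _ _ (fun i => pow_zero _)]
  refine (Polynomial.natDegree_C_mul_le _ _).trans ?_
  refine (Polynomial.natDegree_prod_le _ _).trans ?_
  rw [← h1, Finsupp.degree_eq_sum, Finset.mul_sum]
  refine Finset.sum_le_sum fun i _ => ?_
  refine (Polynomial.natDegree_pow_le).trans ?_
  rw [mul_comm]
  exact Nat.mul_le_mul_right _ (hu i)

lemma natDegree_iterPol {F : Fin 2 → MvPolynomial (Fin 2) K} {d : ℕ}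
    (hF : ∀ i, (F i).IsHomogeneous d) (n : ℕ) (i : Fin 2) :
    (iterPol F n i).natDegree ≤ d ^ n := by
  unfold iterPol
  induction n generalizing i with
  | zero =>
    fin_cases i
    · simp
    · simp
  | succ n ih =>
    rw [Function.iterate_succ_apply', pow_succ]
    exact natDegree_aeval_le (hF i) ih

lemma natDegree_numer {F : Fin 2 → MvPolynomial (Fin 2) K} {d : ℕ}
    (hF : ∀ i, (F i).IsHomogeneous d) (a : Fin 2 → K) (n : ℕ) :
    (numer F a n).natDegree ≤ d ^ n := by
  unfold numer
  refine (Polynomial.natDegree_sub_le _ _).trans (max_le ?_ ?_)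
  · exact (Polynomial.natDegree_C_mul_le _ _).trans (natDegree_iterPol hF n 0)
  · exact (Polynomial.natDegree_C_mul_le _ _).trans (natDegree_iterPol hF n 1)

lemma eval_iterPol (F : Fin 2 → MvPolynomial (Fin 2) K) (n : ℕ) (β : AlgebraicClosure K) :
    (act F)^[n] ![β, 1] = fun i => Polynomial.aeval β (iterPol F n i) := by
  unfold iterPol
  induction n with
  | zero =>
    funext i
    fin_cases i
    · simp
    · simp
  | succ n ih =>
    rw [Function.iterate_succ_apply', ih]
    funext i
    rw [Function.iterate_succ_apply']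
    unfold act
    exact (MvPolynomial.comp_aeval_apply (f := _)
      (Polynomial.aeval β : K[X] →ₐ[K] AlgebraicClosure K) (F i)).symm

/-- the point with affine coordinate `β` -/
def pt (β : AlgebraicClosure K) : ℙ (AlgebraicClosure K) (Fin 2 → AlgebraicClosure K) :=
  Projectivization.mk _ ![β, 1] (by
    intro h
    have := congrFun h 1
    simp at this)

lemma pt_rep (β : AlgebraicClosure K) : ∃ c : AlgebraicClosure K, c ≠ 0 ∧
    (pt β).rep = c • ![β, 1] := by
  have h1 : Projectivization.mk (AlgebraicClosure K) (pt β).rep (pt β).rep_nonzero =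
      Projectivization.mk _ ![β, 1] (by
    intro h
    have := congrFun h 1
    simp at this) := Projectivization.mk_rep _
  rw [Projectivization.mk_eq_mk_iff'] at h1
  obtain ⟨c, hc⟩ := h1
  refine ⟨c, ?_, hc.symm⟩
  rintro rfl
  rw [zero_smul] at hc
  exact (pt β).rep_nonzero hc.symm

lemma pt_injective : Function.Injective (pt (K := K)) := by
  intro β γ h
  unfold pt at h
  rw [Projectivization.mk_eq_mk_iff'] at h
  obtain ⟨c, hc⟩ := h
  have h1 := congrFun hc 1
  have h0 := congrFun hc 0
  simp only [Pi.smul_apply, smul_eq_mul, Matrix.cons_val_zero, Matrix.cons_val_one, mul_one] at h0 h1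
  rw [h1, one_mul] at h0
  exact h0.symm

lemma finrank_fieldOf_pt (β : AlgebraicClosure K) :
    finrank K (fieldOf K (pt β)) ≤ (minpoly K β).natDegree := by
  have hβ : IsIntegral K β := (Algebra.IsAlgebraic.isAlgebraic β).isIntegral
  obtain ⟨c, hc, h⟩ := pt_rep β
  have h1 : fieldOf K (pt β) ≤ IntermediateField.adjoin K {β} := by
    refine fieldOf_le h fun i => ?_
    fin_cases i
    · exact IntermediateField.subset_adjoin _ _ (Set.mem_singleton β)
    · exact IntermediateField.one_mem _
  have : FiniteDimensional K (IntermediateField.adjoin K {β}) :=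
    IntermediateField.adjoin.finiteDimensional hβ
  refine (IntermediateField.finrank_le_of_le_right h1).trans ?_
  exact (IntermediateField.adjoin.finrank hβ).le

/-- proportionality of two vectors -/
lemma prop_of_cross {a : Fin 2 → K} (ha : a ≠ 0) {y : Fin 2 → AlgebraicClosure K} (hy : y ≠ 0)
    (hrel : algebraMap K (AlgebraicClosure K) (a 1) * y 0 =
      algebraMap K (AlgebraicClosure K) (a 0) * y 1) :
    ∃ b : AlgebraicClosure K, b ≠ 0 ∧
      y = b • fun i => algebraMap K (AlgebraicClosure K) (a i) := by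
  by_cases ha1 : a 1 = 0
  · have ha0 : a 0 ≠ 0 := by
      intro h
      apply ha
      funext i
      fin_cases i
      · exact h
      · exact ha1
    have ha0' : algebraMap K (AlgebraicClosure K) (a 0) ≠ 0 := by
      rw [Ne, map_eq_zero]
      exact ha0
    rw [ha1, map_zero, zero_mul] at hrel
    have hy1 : y 1 = 0 := by
      rcases mul_eq_zero.mp hrel.symm with h | h
      · exact absurd h ha0'
      · exact h
    have hy0 : y 0 ≠ 0 := by
      intro h
      apply hy
      funext i
      fin_cases i
      · exact h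
      · exact hy1
    refine ⟨y 0 / algebraMap K (AlgebraicClosure K) (a 0), div_ne_zero hy0 ha0', ?_⟩
    funext i
    fin_cases i
    · simp only [Pi.smul_apply, smul_eq_mul]
      exact (div_mul_cancel₀ _ ha0').symm
    · simp only [Pi.smul_apply, smul_eq_mul]
      change y 1 = _ * algebraMap K (AlgebraicClosure K) (a 1)
      rw [hy1, ha1, map_zero, mul_zero]
  · have ha1' : algebraMap K (AlgebraicClosure K) (a 1) ≠ 0 := by
      rw [Ne, map_eq_zero]
      exact ha1
    have hy0 : y 0 = y 1 / algebraMap K (AlgebraicClosure K) (a 1) *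
        algebraMap K (AlgebraicClosure K) (a 0) := by
      field_simp
      linear_combination hrel
    have hy1 : y 1 ≠ 0 := by
      intro h
      rw [h, zero_div, zero_mul] at hy0
      apply hy
      funext i
      fin_cases i
      · exact hy0
      · exact h
    refine ⟨y 1 / algebraMap K (AlgebraicClosure K) (a 1), div_ne_zero hy1 ha1', ?_⟩
    funext i
    fin_cases i
    · exact hy0
    · simp only [Pi.smul_apply, smul_eq_mul]
      exact (div_mul_cancel₀ _ ha1').symm

/-- the factors of small degree are counted by points of the backward orbit, the others by their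
degree -/
theorem factor_count [NumberField K] {F : Fin 2 → MvPolynomial (Fin 2) K} {d : ℕ}
    (hF : ∀ i, (F i).IsHomogeneous d)
    (hmor : ∀ z : Fin 2 → AlgebraicClosure K, (∀ i, aeval z (F i) = 0) → z = 0)
    {a : Fin 2 → K} (ha : a ≠ 0) (n D : ℕ) (hne : numer F a n ≠ 0)
    (hfin : (backSet F (fun i => algebraMap K (AlgebraicClosure K) (a i)) D).Finite)
    (T : Finset K[X]) (hT : ∀ g ∈ T, g.Monic ∧ Irreducible g ∧ g ∣ numer F a n) :
    (T.card : ℝ) ≤
      ((backSet F (fun i => algebraMap K (AlgebraicClosure K) (a i)) D).ncard : ℝ) +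
        (d : ℝ) ^ n / (D + 1) := by
  classical
  set T₁ := T.filter fun g => g.natDegree ≤ D with hT₁
  set T₂ := T.filter fun g => ¬ g.natDegree ≤ D with hT₂
  have hcard : T.card = T₁.card + T₂.card := (Finset.card_filter_add_card_filter_not _).symm
  -- large degree
  have hdvd : ∏ g ∈ T₂, g ∣ numer F a n := by
    refine Finset.prod_dvd_of_coprime ?_ ?_
    · intro g hg g' hg' hgg'
      have h1 := hT g (Finset.mem_filter.mp hg).1
      have h2 := hT g' (Finset.mem_filter.mp hg').1
      refine (h1.2.1.coprime_iff_not_dvd).mpr fun hd => hgg' ?_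
      exact Polynomial.eq_of_monic_of_associated h1.1 h2.1
        (h1.2.1.associated_of_dvd h2.2.1 hd)
    · intro g hg
      exact (hT g (Finset.mem_filter.mp hg).1).2.2
  have hT₂card : T₂.card * (D + 1) ≤ d ^ n := by
    have h1 : (∏ g ∈ T₂, g).natDegree ≤ d ^ n :=
      (Polynomial.natDegree_le_of_dvd hdvd hne).trans (natDegree_numer hF a n)
    rw [Polynomial.natDegree_prod_of_monic _ _ fun g hg =>
      (hT g (Finset.mem_filter.mp hg).1).1] at h1
    refine le_trans ?_ h1
    have h2 := Finset.card_nsmul_le_sum T₂ (fun g => g.natDegree) (D + 1) fun g hg => by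
      have := (Finset.mem_filter.mp hg).2
      omega
    rwa [smul_eq_mul] at h2
  -- small degree
  have hroot : ∀ g ∈ T, ∃ β : AlgebraicClosure K, minpoly K β = g ∧
      Polynomial.aeval β (numer F a n) = 0 := by
    intro g hg
    obtain ⟨h1, h2, h3⟩ := hT g hg
    obtain ⟨β, hβ⟩ := IsAlgClosed.exists_aeval_eq_zero (AlgebraicClosure K) g
      (Polynomial.degree_pos_of_irreducible h2).ne'
    refine ⟨β, (minpoly.eq_of_irreducible_of_monic h2 hβ h1).symm, ?_⟩
    obtain ⟨q, hq⟩ := h3
    rw [hq, map_mul, hβ, zero_mul]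
  choose! r hr1 hr2 using hroot
  have hinj : Set.InjOn (fun g => pt (r g)) T₁ := by
    intro g hg g' hg' h
    have h1 : r g = r g' := pt_injective h
    rw [← hr1 g (Finset.mem_filter.mp hg).1, ← hr1 g' (Finset.mem_filter.mp hg').1, h1]
  have hsub : ((T₁.image fun g => pt (r g) : Finset _) : Set _) ⊆
      backSet F (fun i => algebraMap K (AlgebraicClosure K) (a i)) D := by
    intro P hP
    rw [Finset.mem_coe, Finset.mem_image] at hP
    obtain ⟨g, hg, rfl⟩ := hP
    obtain ⟨hgT, hgD⟩ := Finset.mem_filter.mp hg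
    refine ⟨(finrank_fieldOf_pt _).trans (by rw [hr1 g hgT]; exact hgD), n, ?_⟩
    obtain ⟨c, hc, h⟩ := pt_rep (r g)
    obtain ⟨c', hc', h'⟩ := iter_smul (N := 1) hF hc ![r g, 1] n
    have hv0 : (![r g, 1] : Fin 2 → AlgebraicClosure K) ≠ 0 := by
      intro h
      have := congrFun h 1
      simp at this
    have hit0 := iter_ne_zero' (N := 1) (F := F) hmor hv0 n
    have hrel := hr2 g hgT
    unfold numer at hrel
    rw [map_sub, map_mul, map_mul, Polynomial.aeval_C, Polynomial.aeval_C, sub_eq_zero] at hrel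
    -- proportionality
    have hev := eval_iterPol F n (r g)
    have h0 : (act F)^[n] ![r g, 1] 0 = Polynomial.aeval (r g) (iterPol F n 0) := by rw [hev]
    have h1 : (act F)^[n] ![r g, 1] 1 = Polynomial.aeval (r g) (iterPol F n 1) := by rw [hev]
    rw [← h0, ← h1] at hrel
    set y := (act F)^[n] (![r g, 1] : Fin 2 → AlgebraicClosure K) with hy
    have hprop := prop_of_cross ha hit0 hrel
    obtain ⟨b, hb, hb'⟩ := hprop
    refine ⟨c' * b, mul_ne_zero hc' hb, ?_⟩
    rw [h, h', hb', smul_smul]
  have hT₁card : T₁.card ≤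
      (backSet F (fun i => algebraMap K (AlgebraicClosure K) (a i)) D).ncard := by
    rw [← Finset.card_image_of_injOn hinj, ← Set.ncard_coe_finset]
    exact Set.ncard_le_ncard hsub hfin
  have h3 : (T₂.card : ℝ) ≤ (d : ℝ) ^ n / (D + 1) := by
    rw [le_div_iff₀ (by positivity)]
    exact_mod_cast hT₂card
  rw [hcard]
  push_cast
  have h4 : (T₁.card : ℝ) ≤
      ((backSet F (fun i => algebraMap K (AlgebraicClosure K) (a i)) D).ncard : ℝ) := by
    exact_mod_cast hT₁card
  linarith

/-- the numerator is not zero -/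
lemma numer_ne_zero [NumberField K] {F : Fin 2 → MvPolynomial (Fin 2) K} {d : ℕ} (hd : 2 ≤ d)
    (hF : ∀ i, (F i).IsHomogeneous d)
    (hmor : ∀ z : Fin 2 → AlgebraicClosure K, (∀ i, aeval z (F i) = 0) → z = 0)
    {a : Fin 2 → K} (ha : a ≠ 0) (n : ℕ) : numer F a n ≠ 0 := by
  classical
  intro h0
  obtain ⟨B, hB, hfib⟩ := fibre_bound hd hF hmor
  have hα : (fun i => algebraMap K (AlgebraicClosure K) (a i)) ≠ 0 := by
    intro h
    apply ha
    funext i
    have := congrFun h i
    simpa using this
  have hfib' : ∀ γ, {β | phi hmor β = γ}.Finite ∧ {β | phi hmor β = γ}.ncard ≤ B := by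
    intro γ
    have h1 : {β | phi hmor β = γ} =
        {P : ℙ (AlgebraicClosure K) (Fin (1 + 1) → AlgebraicClosure K) |
        ∃ c : AlgebraicClosure K, c ≠ 0 ∧ act F P.rep = c • γ.rep} := by
      ext β
      exact mk_eq_iff (act_ne_zero' hmor β.rep_nonzero)
    rw [h1]
    exact hfib γ.rep
  -- all points `[β : 1]` have the same image
  have hcross : ∀ β : AlgebraicClosure K, algebraMap K (AlgebraicClosure K) (a 1) *
      (act F)^[n] ![β, 1] 0 = algebraMap K (AlgebraicClosure K) (a 0) *
      (act F)^[n] ![β, 1] 1 := by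
    intro β
    have h1 : Polynomial.aeval β (numer F a n) = 0 := by rw [h0, map_zero]
    unfold numer at h1
    rw [map_sub, map_mul, map_mul, Polynomial.aeval_C, Polynomial.aeval_C, sub_eq_zero] at h1
    rw [eval_iterPol F n β]
    exact h1
  have hfin := (preimage_bound (phi hmor) B (fun γ => (hfib' γ).1) (fun γ => (hfib' γ).2)
    (Projectivization.mk (AlgebraicClosure K) _ hα) n).1
  have hsub : Set.range (pt (K := K)) ⊆ {β | (phi hmor)^[n] β =
      Projectivization.mk (AlgebraicClosure K) _ hα} := by
    rintro _ ⟨β, rfl⟩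
    change (phi hmor)^[n] (pt β) = _
    rw [iter_phi_eq_iff hmor hF n (pt β) hα]
    obtain ⟨c, hc, h⟩ := pt_rep β
    obtain ⟨c', hc', h'⟩ := iter_smul (N := 1) hF hc ![β, 1] n
    have hv0 : (![β, 1] : Fin 2 → AlgebraicClosure K) ≠ 0 := by
      intro h
      have := congrFun h 1
      simp at this
    have hit0 := iter_ne_zero' (N := 1) (F := F) hmor hv0 n
    have hrel := hcross β
    set y := (act F)^[n] (![β, 1] : Fin 2 → AlgebraicClosure K) with hy
    have hprop := prop_of_cross ha hit0 hrel
    obtain ⟨b, hb, hb'⟩ := hprop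
    refine ⟨c' * b, mul_ne_zero hc' hb, ?_⟩
    rw [h, h', hb', smul_smul]
  have hinf : (Set.range (pt (K := K))).Infinite := Set.infinite_range_of_injective pt_injective
  exact hinf (hfin.subset hsub)

end

end Pool.Agent.D0H82.DL
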