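import Mathlib
import Pool.Agent.D0H82.DL.Fac

/-!
Consequences of the count: lower bounds for the canonical heights of almost all points of a
backward orbit, and the number of irreducible factors of the iterates.
-/

set_option autoImplicit false

namespace Pool.Agent.D0H82.DL

open MvPolynomial NumberField Module Filter Topology Pool.Agent.W238.Leh

open scoped LinearAlgebra.Projectivization Polynomial

noncomputable section

/-- the real estimate for the lower bounds -/
lemma real_lower {C A η h : ℝ} {d n : ℕ} (hC : 0 < C) (hη : 0 < η) (hh : 0 < h) (hd : 2 ≤ d)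
    (hA : A = C + 1 + C * Real.log d / η) :
    0 < A ∧ ∃ D : ℕ, (∀ k : ℕ, 1 ≤ k → h / (d : ℝ) ^ n < Real.exp (-(A * (1 + Real.log k) ^ 2)) →
      k ≤ D) ∧
      Real.exp (C * Real.log (2 + h)) * Real.exp (C * Real.log (D + 1) ^ 2) ≤
        Real.exp (A * Real.log (2 + h + 1 / h)) * Real.exp (η * n) := by
  have hd1 : (1 : ℝ) < d := by
    have : 1 < d := by omega
    exact_mod_cast this
  have hld : 0 < Real.log d := Real.log_pos hd1
  have hA0 : 0 < A := by rw [hA]; positivity
  refine ⟨hA0, ?_⟩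
  set t := Real.log (2 + h + 1 / h) with ht
  have hh1 : 0 < 1 / h := by positivity
  have ht0 : 0 < t := Real.log_pos (by linarith)
  have ht1 : Real.log (2 + h) ≤ t := Real.log_le_log (by linarith) (by linarith)
  have ht2 : -Real.log h ≤ t := by
    rw [← Real.log_inv, ← one_div]
    exact Real.log_le_log hh1 (by linarith)
  set Y := (n : ℝ) * Real.log d + t with hY
  have hY0 : 0 < Y := by positivity
  set s := Real.sqrt (Y / A) with hs
  have hs2 : s ^ 2 = Y / A := Real.sq_sqrt (by positivity)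
  have hs0 : 0 ≤ s := Real.sqrt_nonneg _
  refine ⟨⌊Real.exp (s - 1)⌋₊, ?_, ?_⟩
  · intro k hk h1
    apply Nat.le_floor
    have hk1 : (1 : ℝ) ≤ k := by exact_mod_cast hk
    have hlk : 0 ≤ Real.log k := Real.log_nonneg hk1
    have h2 := Real.log_lt_log (by positivity) h1
    rw [Real.log_exp, Real.log_div hh.ne' (by positivity), Real.log_pow] at h2
    have h3 : (1 + Real.log k) ^ 2 ≤ s ^ 2 := by
      rw [hs2, le_div_iff₀ hA0]
      linarith
    have h4 : 1 + Real.log k ≤ s := by
      have := abs_le_of_sq_le_sq' h3 hs0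
      exact this.2
    calc (k : ℝ) = Real.exp (Real.log k) := (Real.exp_log (by linarith)).symm
      _ ≤ Real.exp (s - 1) := Real.exp_le_exp.mpr (by linarith)
  · have hlog : Real.log ((⌊Real.exp (s - 1)⌋₊ : ℝ) + 1) ^ 2 ≤ s ^ 2 := by
      have h0 : (0 : ℝ) ≤ ⌊Real.exp (s - 1)⌋₊ := Nat.cast_nonneg _
      have h1 : 0 ≤ Real.log ((⌊Real.exp (s - 1)⌋₊ : ℝ) + 1) := Real.log_nonneg (by linarith)
      have h2 : Real.log ((⌊Real.exp (s - 1)⌋₊ : ℝ) + 1) ≤ s := by
        rcases Nat.eq_zero_or_pos ⌊Real.exp (s - 1)⌋₊ with h3 | h3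
        · rw [h3]
          simpa using hs0
        · have h4 : (1 : ℝ) ≤ ⌊Real.exp (s - 1)⌋₊ := by exact_mod_cast h3
          have h5 : (⌊Real.exp (s - 1)⌋₊ : ℝ) ≤ Real.exp (s - 1) :=
            Nat.floor_le (Real.exp_nonneg _)
          have h6 : (2 : ℝ) ≤ Real.exp 1 := by
            have := Real.add_one_le_exp (1 : ℝ)
            linarith
          have h7 : Real.exp s = Real.exp (s - 1) * Real.exp 1 := by
            rw [← Real.exp_add]
            congr 1
            ring
          have h8 : (⌊Real.exp (s - 1)⌋₊ : ℝ) + 1 ≤ Real.exp s := by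
            rw [h7]
            have := Real.exp_pos (s - 1)
            nlinarith
          have h9 := Real.log_le_log (by linarith) h8
          rwa [Real.log_exp] at h9
      exact pow_le_pow_left₀ h1 h2 2
    rw [← Real.exp_add, ← Real.exp_add]
    apply Real.exp_le_exp.mpr
    have h1 : C * Real.log ((⌊Real.exp (s - 1)⌋₊ : ℝ) + 1) ^ 2 ≤ C * (Y / A) := by
      rw [← hs2]
      exact mul_le_mul_of_nonneg_left hlog hC.le
    have h2 : C * Real.log (2 + h) ≤ C * t := mul_le_mul_of_nonneg_left ht1 hC.le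
    have h3 : C * (Y / A) = (C * Real.log d / A) * n + C / A * t := by
      rw [hY]
      field_simp
    have h4 : C * Real.log d / A ≤ η := by
      rw [div_le_iff₀ hA0, hA]
      have : η * (C * Real.log d / η) = C * Real.log d := by field_simp
      have h5 : 0 ≤ η * (C + 1) := by positivity
      calc C * Real.log d = η * (C * Real.log d / η) := this.symm
        _ ≤ η * (C + 1) + η * (C * Real.log d / η) := by linarith
        _ = _ := by ring
    have h5 : C / A ≤ 1 := by
      rw [div_le_one hA0, hA]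
      have : 0 ≤ C * Real.log d / η := by positivity
      linarith
    have h6 : (C * Real.log d / A) * n ≤ η * n :=
      mul_le_mul_of_nonneg_right h4 (Nat.cast_nonneg n)
    have h7 : C / A * t ≤ 1 * t := mul_le_mul_of_nonneg_right h5 ht0.le
    have h8 : (C + 1) * t ≤ A * t := by
      refine mul_le_mul_of_nonneg_right ?_ ht0.le
      rw [hA]
      have : 0 ≤ C * Real.log d / η := by positivity
      linarith
    linarith

/-- the real estimate for the factors -/
lemma real_factor {C h : ℝ} {d n : ℕ} (hC : 0 < C) (hh : 0 ≤ h) (hd : 2 ≤ d) :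
    ∃ D : ℕ, Real.exp (C * Real.log (2 + h)) * Real.exp (C * Real.log (D + 1) ^ 2) +
        (d : ℝ) ^ n / (D + 1) ≤
        Real.exp ((5 * C + 5) * Real.log (2 + h)) * (d : ℝ) ^ n *
          Real.exp (-(Real.sqrt n / (5 * C + 5))) := by
  have hl2 := Real.log_two_gt_d9
  have hl2' := Real.log_two_lt_d9
  set t := Real.log (2 + h) with ht
  have ht0 : Real.log 2 ≤ t := Real.log_le_log (by norm_num) (by linarith)
  set κ : ℝ := 1 / (4 * (C + 1)) with hκ
  have hκ0 : 0 < κ := by positivity
  set s := κ * Real.sqrt n with hs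
  have hn0 : (0 : ℝ) ≤ n := Nat.cast_nonneg n
  have hsq : Real.sqrt n ^ 2 = n := Real.sq_sqrt hn0
  have hsn0 : 0 ≤ Real.sqrt n := Real.sqrt_nonneg _
  have hs0 : 0 ≤ s := by positivity
  have hdn : (2 : ℝ) ^ n ≤ (d : ℝ) ^ n := pow_le_pow_left₀ (by norm_num) (by exact_mod_cast hd) n
  refine ⟨⌊Real.exp s⌋₊, ?_⟩
  have hD1 : Real.exp s < (⌊Real.exp s⌋₊ : ℝ) + 1 := Nat.lt_floor_add_one _
  have hD2 : (⌊Real.exp s⌋₊ : ℝ) ≤ Real.exp s := Nat.floor_le (Real.exp_nonneg _)
  set D := (⌊Real.exp s⌋₊ : ℝ) with hD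
  have hD0 : 0 ≤ D := Nat.cast_nonneg _
  have h1s : (1 : ℝ) ≤ Real.exp s := Real.one_le_exp hs0
  have hlog : Real.log (D + 1) ≤ s + 1 := by
    have h1 : D + 1 ≤ Real.exp (s + 1) := by
      rw [Real.exp_add]
      have h2 : (2 : ℝ) ≤ Real.exp 1 := by
        have := Real.add_one_le_exp (1 : ℝ)
        linarith
      nlinarith
    have h2 := Real.log_le_log (by linarith) h1
    rwa [Real.log_exp] at h2
  have hlog0 : 0 ≤ Real.log (D + 1) := Real.log_nonneg (by linarith)
  have hlog2 : Real.log (D + 1) ^ 2 ≤ 2 * s ^ 2 + 2 := by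
    have h1 : Real.log (D + 1) ^ 2 ≤ (s + 1) ^ 2 := pow_le_pow_left₀ hlog0 hlog 2
    nlinarith [sq_nonneg (s - 1)]
  -- the first term
  have hCs : C * (2 * s ^ 2) ≤ (1 / 8) * n := by
    have h1 : s ^ 2 = κ ^ 2 * n := by rw [hs, mul_pow, hsq]
    have h2 : C * κ ≤ 1 / 4 := by
      rw [hκ]
      have : C * (1 / (4 * (C + 1))) = C / (4 * (C + 1)) := by ring
      rw [this, div_le_div_iff₀ (by positivity) (by norm_num)]
      linarith
    have h3 : κ ≤ 1 / 4 := by
      rw [hκ]
      apply one_div_le_one_div_of_le (by norm_num)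
      linarith
    have h4 : C * (2 * s ^ 2) = 2 * ((C * κ) * κ) * n := by rw [h1]; ring
    rw [h4]
    refine mul_le_mul_of_nonneg_right ?_ hn0
    have h5 : C * κ * κ ≤ 1 / 4 * (1 / 4) := mul_le_mul h2 h3 hκ0.le (by norm_num)
    linarith
  have hκ4 : κ ≤ 1 / 4 := by
    rw [hκ]
    apply one_div_le_one_div_of_le (by norm_num)
    linarith
  have hsn : s ≤ (1 / 4) * n + 1 / 4 := by
    have h1 : Real.sqrt n ≤ n + 1 := by nlinarith [sq_nonneg (Real.sqrt n - 1)]
    calc s = κ * Real.sqrt n := rfl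
      _ ≤ 1 / 4 * (n + 1) := mul_le_mul hκ4 h1 hsn0 (by norm_num)
      _ = _ := by ring
  have hfirst : Real.exp (C * t) * Real.exp (C * Real.log (D + 1) ^ 2) ≤
      Real.exp (C * t + 2 * C + 1) * ((d : ℝ) ^ n * Real.exp (-s)) := by
    have h1 : (2 : ℝ) ^ n = Real.exp (n * Real.log 2) := by
      rw [Real.exp_nat_mul, Real.exp_log (by norm_num)]
    calc Real.exp (C * t) * Real.exp (C * Real.log (D + 1) ^ 2) =
        Real.exp (C * t + C * Real.log (D + 1) ^ 2) := (Real.exp_add _ _).symm
      _ ≤ Real.exp (C * t + 2 * C + 1 + (n * Real.log 2 + -s)) := by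
          apply Real.exp_le_exp.mpr
          have h2 : C * Real.log (D + 1) ^ 2 ≤ C * (2 * s ^ 2 + 2) :=
            mul_le_mul_of_nonneg_left hlog2 hC.le
          have h3 : (1 / 2 : ℝ) * n ≤ n * Real.log 2 := by nlinarith
          have h4 : C * (2 * s ^ 2 + 2) = C * (2 * s ^ 2) + 2 * C := by ring
          linarith
      _ = Real.exp (C * t + 2 * C + 1) * ((2 : ℝ) ^ n * Real.exp (-s)) := by
          rw [Real.exp_add, Real.exp_add (n * Real.log 2), h1]
      _ ≤ _ := by gcongr
  have hsecond : (d : ℝ) ^ n / (D + 1) ≤ (d : ℝ) ^ n * Real.exp (-s) := by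
    rw [Real.exp_neg, ← div_eq_mul_inv]
    exact div_le_div_of_nonneg_left (by positivity) (Real.exp_pos _) hD1.le
  have hone : (1 : ℝ) ≤ Real.exp (C * t + 2 * C + 1) := Real.one_le_exp (by
    have : 0 ≤ C * t := mul_nonneg hC.le (by linarith)
    linarith)
  have hX : 0 ≤ (d : ℝ) ^ n * Real.exp (-s) := by positivity
  calc Real.exp (C * t) * Real.exp (C * Real.log (D + 1) ^ 2) + (d : ℝ) ^ n / (D + 1) ≤
      Real.exp (C * t + 2 * C + 1) * ((d : ℝ) ^ n * Real.exp (-s)) +
        (d : ℝ) ^ n * Real.exp (-s) := add_le_add hfirst hsecond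
    _ ≤ (2 * Real.exp (C * t + 2 * C + 1)) * ((d : ℝ) ^ n * Real.exp (-s)) := by nlinarith
    _ ≤ Real.exp ((5 * C + 5) * t) * ((d : ℝ) ^ n *
          Real.exp (-(Real.sqrt n / (5 * C + 5)))) := by
        refine mul_le_mul ?_ ?_ hX (Real.exp_nonneg _)
        · have h1 : (2 : ℝ) = Real.exp (Real.log 2) := (Real.exp_log (by norm_num)).symm
          calc 2 * Real.exp (C * t + 2 * C + 1) = Real.exp (Real.log 2 + (C * t + 2 * C + 1)) := by
                rw [Real.exp_add (Real.log 2) (C * t + 2 * C + 1), ← h1]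
            _ ≤ _ := by
                apply Real.exp_le_exp.mpr
                have h2 : 2 * C ≤ 3 * (C * t) := by nlinarith
                have h3 : (1 : ℝ) ≤ 2 * t := by linarith
                nlinarith
        · gcongr
          rw [hs, hκ, div_eq_mul_one_div, mul_comm]
          refine mul_le_mul_of_nonneg_right ?_ hsn0
          apply one_div_le_one_div_of_le (by positivity)
          linarith
    _ = _ := by ring

end

end Pool.Agent.D0H82.DL
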